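import Mathlib

/-!
# Good models: the predicate `Good` and its permanence properties
-/

set_option autoImplicit false

namespace Pool.Agent.H72.CE

open Finset

/-- `k A - k A` -/
def Dk {G : Type} [AddCommGroup G] (k : ℕ) (A : Set G) : Set G :=
  {x | ∃ a b : Fin k → G, (∀ i, a i ∈ A) ∧ (∀ i, b i ∈ A) ∧ x = ∑ i, a i - ∑ i, b i}

section Dk

variable {G G' : Type} [AddCommGroup G] [AddCommGroup G']

theorem Dk_mono {k : ℕ} {A B : Set G} (h : A ⊆ B) : Dk k A ⊆ Dk k B := by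
  rintro x ⟨a, b, ha, hb, rfl⟩
  exact ⟨a, b, fun i => h (ha i), fun i => h (hb i), rfl⟩

theorem Dk_add {k l : ℕ} {A : Set G} {x y : G} (hx : x ∈ Dk k A) (hy : y ∈ Dk l A) :
    x + y ∈ Dk (k + l) A := by
  obtain ⟨a, b, ha, hb, rfl⟩ := hx
  obtain ⟨a', b', ha', hb', rfl⟩ := hy
  refine ⟨Fin.append a a', Fin.append b b', ?_, ?_, ?_⟩
  · intro i
    refine Fin.addCases (fun j => ?_) (fun j => ?_) i
    · rw [Fin.append_left]; exact ha j
    · rw [Fin.append_right]; exact ha' j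
  · intro i
    refine Fin.addCases (fun j => ?_) (fun j => ?_) i
    · rw [Fin.append_left]; exact hb j
    · rw [Fin.append_right]; exact hb' j
  · rw [Fin.sum_univ_add, Fin.sum_univ_add]
    simp only [Fin.append_left, Fin.append_right]
    abel

theorem Dk_image {k : ℕ} {A : Set G} (φ : G →+ G') {y : G'} (hy : y ∈ Dk k (φ '' A)) :
    ∃ x ∈ Dk k A, φ x = y := by
  obtain ⟨a, b, ha, hb, rfl⟩ := hy
  choose a' ha' ha'' using ha
  choose b' hb' hb'' using hb
  refine ⟨∑ i, a' i - ∑ i, b' i, ⟨a', b', ha', hb', rfl⟩, ?_⟩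
  rw [map_sub, map_sum, map_sum]
  simp only [ha'', hb'']

theorem Dk_finite {k : ℕ} {A : Set G} (hA : A.Finite) : (Dk k A).Finite := by
  have h1 : (Set.pi Set.univ (fun _ : Fin k => A)).Finite := Set.Finite.pi' (fun _ => hA) |>.subset
    (by intro f hf; simpa using hf)
  have h2 := (h1.prod h1).image (fun q : (Fin k → G) × (Fin k → G) => ∑ i, q.1 i - ∑ i, q.2 i)
  refine h2.subset ?_
  rintro x ⟨a, b, ha, hb, rfl⟩
  refine ⟨(a, b), ⟨?_, ?_⟩, rfl⟩
  · intro i _; exact ha i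
  · intro i _; exact hb i

theorem Dk_two {A : Set G} {x y z t : G} (hx : x ∈ A) (hy : y ∈ A) (hz : z ∈ A) (ht : t ∈ A) :
    x + y - z - t ∈ Dk 2 A := by
  refine ⟨![x, y], ![z, t], ?_, ?_, ?_⟩
  · intro i; fin_cases i
    · exact hx
    · exact hy
  · intro i; fin_cases i
    · exact hz
    · exact ht
  · simp [Fin.sum_univ_two]
    abel

end Dk

/-- The fibre over `0` of `kA - kA`. -/
def Fb {G₁ G₂ : Type} [AddCommGroup G₁] [AddCommGroup G₂] (k : ℕ) (A : Set (G₁ × G₂)) : Set G₁ :=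
  {g | (g, (0 : G₂)) ∈ Dk k A}

theorem Fb_finite {G₁ G₂ : Type} [AddCommGroup G₁] [AddCommGroup G₂] {k : ℕ}
    {A : Set (G₁ × G₂)} (hA : A.Finite) : (Fb k A).Finite := by
  refine ((Dk_finite (k := k) hA).image Prod.fst).subset ?_
  intro g hg
  exact ⟨(g, 0), hg, rfl⟩

/-- `ψ` gives a Freiman isomorphism on `A'` -/
def FI {G₁ G₂ H : Type} [AddCommGroup G₁] [AddCommGroup G₂] [AddCommGroup H]
    (A' : Set (G₁ × G₂)) (ψ : G₁ → H) : Prop :=
  ∀ x ∈ A', ∀ y ∈ A', ∀ z ∈ A', ∀ t ∈ A', x.2 + y.2 = z.2 + t.2 →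
    (x.1 + y.1 = z.1 + t.1 ↔ ψ x.1 + ψ y.1 = ψ z.1 + ψ t.1)

/-- Good models of the first coordinate, whatever the second coordinate is. -/
def Good (G₁ : Type) [AddCommGroup G₁] (c C k : ℕ) : Prop :=
  ∀ (G₂ : Type) [AddCommGroup G₂] (A : Set (G₁ × G₂)), A.Finite → A.Nonempty →
    ∃ A' ⊆ A, A.ncard ≤ c * A'.ncard ∧ ∃ (H : Type) (_ : AddCommGroup H) (_ : Finite H)
      (ψ : G₁ → H), FI A' ψ ∧ Nat.card H ≤ C * (Fb k A).ncard

theorem FI.inj {G₁ G₂ H : Type} [AddCommGroup G₁] [AddCommGroup G₂] [AddCommGroup H]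
    {A' : Set (G₁ × G₂)} {ψ : G₁ → H} (h : FI A' ψ) {x y : G₁ × G₂} (hx : x ∈ A') (hy : y ∈ A')
    (h1 : ψ x.1 = ψ y.1) (h2 : x.2 = y.2) : x = y := by
  have := (h x hx x hx y hy x hx (by rw [h2])).2 (by rw [h1])
  exact Prod.ext (add_right_cancel this) h2

/-- local criterion -/
theorem good_local {G₁ : Type} [AddCommGroup G₁] {c C k : ℕ}
    (hloc : ∀ E D : Set G₁, E.Finite → D.Finite → ∃ (V : Type) (_ : AddCommGroup V),
      Good V c C k ∧ ∃ φ : AddSubgroup.closure E →+ V, ∀ w : AddSubgroup.closure E,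
        (w : G₁) ∈ D → φ w = 0 → w = 0) : Good G₁ c C k := by
  classical
  intro G₂ _ A hA hne
  set E : Set G₁ := Prod.fst '' A with hE
  have hEf : E.Finite := hA.image _
  obtain ⟨V, _, hV, φ, hφ⟩ := hloc E (Fb 2 A) hEf (Fb_finite hA)
  have hmem : ∀ x ∈ A, x.1 ∈ AddSubgroup.closure E := fun x hx =>
    AddSubgroup.subset_closure ⟨x, hx, rfl⟩
  -- extension of `φ` as a function
  set φ' : G₁ → V := fun g => if h : g ∈ AddSubgroup.closure E then φ ⟨g, h⟩ else 0 with hφ'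
  have hφ'1 : ∀ g (h : g ∈ AddSubgroup.closure E), φ' g = φ ⟨g, h⟩ := by
    intro g h; simp only [hφ', dif_pos h]
  have hadd : ∀ g ∈ AddSubgroup.closure E, ∀ g' ∈ AddSubgroup.closure E,
      φ' (g + g') = φ' g + φ' g' := by
    intro g hg g' hg'
    rw [hφ'1 g hg, hφ'1 g' hg', hφ'1 _ (add_mem hg hg'), ← map_add]
    rfl
  have hsub : ∀ g ∈ AddSubgroup.closure E, ∀ g' ∈ AddSubgroup.closure E,
      φ' (g - g') = φ' g - φ' g' := by
    intro g hg g' hg'
    rw [hφ'1 g hg, hφ'1 g' hg', hφ'1 _ (sub_mem hg hg'), ← map_sub]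
    rfl
  have hker : ∀ w ∈ AddSubgroup.closure E, w ∈ Fb 2 A → φ' w = 0 → w = 0 := by
    intro w hw hwD h0
    rw [hφ'1 w hw] at h0
    have := hφ ⟨w, hw⟩ hwD h0
    exact congrArg Subtype.val this
  set B : Set (V × G₂) := (fun x : G₁ × G₂ => (φ' x.1, x.2)) '' A with hB
  have hiff : ∀ x ∈ A, ∀ y ∈ A, ∀ z ∈ A, ∀ t ∈ A, x.2 + y.2 = z.2 + t.2 →
      (x.1 + y.1 = z.1 + t.1 ↔ φ' x.1 + φ' y.1 = φ' z.1 + φ' t.1) := by
    intro x hx y hy z hz t ht h2
    have hw : x.1 + y.1 - (z.1 + t.1) ∈ AddSubgroup.closure E :=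
      sub_mem (add_mem (hmem x hx) (hmem y hy)) (add_mem (hmem z hz) (hmem t ht))
    have hwF : x.1 + y.1 - (z.1 + t.1) ∈ Fb 2 A := by
      have := Dk_two hx hy hz ht
      have h3 : x + y - z - t = (x.1 + y.1 - (z.1 + t.1), (0 : G₂)) := by
        ext
        · simp; abel
        · simp [h2]
      rw [h3] at this
      exact this
    have hφw : φ' (x.1 + y.1 - (z.1 + t.1)) = φ' x.1 + φ' y.1 - (φ' z.1 + φ' t.1) := by
      rw [hsub _ (add_mem (hmem x hx) (hmem y hy)) _ (add_mem (hmem z hz) (hmem t ht)),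
        hadd _ (hmem x hx) _ (hmem y hy), hadd _ (hmem z hz) _ (hmem t ht)]
    constructor
    · intro h
      rw [h, sub_self, hφ'1 0 (zero_mem _)] at hφw
      have h0 : φ ⟨0, zero_mem _⟩ = 0 := map_zero φ
      rw [h0] at hφw
      exact (sub_eq_zero.1 hφw.symm)
    · intro h
      rw [h, sub_self] at hφw
      exact sub_eq_zero.1 (hker _ hw hwF hφw)
  have hinj : Set.InjOn (fun x : G₁ × G₂ => (φ' x.1, x.2)) A := by
    intro x hx y hy hxy
    have h1 : φ' x.1 = φ' y.1 := (Prod.ext_iff.1 hxy).1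
    have h2 : x.2 = y.2 := (Prod.ext_iff.1 hxy).2
    have := (hiff x hx x hx y hy x hx (by rw [h2])).2 (by rw [h1])
    exact Prod.ext (add_right_cancel this) h2
  obtain ⟨B', hB', hcard, H, _, _, ψ, hFI, hH⟩ := hV G₂ B (hA.image _) (hne.image _)
  set A' : Set (G₁ × G₂) := {x ∈ A | (φ' x.1, x.2) ∈ B'} with hA'
  have himg : (fun x : G₁ × G₂ => (φ' x.1, x.2)) '' A' = B' := by
    ext y
    constructor
    · rintro ⟨x, hx, rfl⟩; exact hx.2
    · intro hy
      obtain ⟨x, hx, rfl⟩ := hB' hy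
      exact ⟨x, ⟨hx, hy⟩, rfl⟩
  refine ⟨A', fun x hx => hx.1, ?_, H, inferInstance, inferInstance, fun g => ψ (φ' g), ?_, ?_⟩
  · have h1 : B.ncard = A.ncard := hinj.ncard_image
    have h2 : B'.ncard = A'.ncard := by
      rw [← himg]
      exact (hinj.mono (fun x hx => hx.1)).ncard_image
    rw [← h1, ← h2]
    exact hcard
  · intro x hx y hy z hz t ht h2
    rw [hiff x hx.1 y hy.1 z hz.1 t ht.1 h2]
    exact hFI _ hx.2 _ hy.2 _ hz.2 _ ht.2 h2
  · refine hH.trans (Nat.mul_le_mul_left _ ?_)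
    have h3 : Fb k B ⊆ φ' '' (Fb k A) := by
      rintro v ⟨a, b, ha, hb, hv⟩
      choose a' ha' ha'' using ha
      choose b' hb' hb'' using hb
      have hsum : ∀ (n : ℕ) (a : Fin n → G₁ × G₂), (∀ i, a i ∈ A) →
          (∑ i, (a i).1 ∈ AddSubgroup.closure E) ∧ φ' (∑ i, (a i).1) = ∑ i, φ' (a i).1 := by
        intro n
        induction n with
        | zero =>
          intro a _
          simp only [Finset.univ_eq_empty, Finset.sum_empty]
          refine ⟨zero_mem _, ?_⟩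
          rw [hφ'1 0 (zero_mem _)]
          exact map_zero φ
        | succ n ih =>
          intro a ha
          obtain ⟨h1, h2⟩ := ih (fun i => a i.succ) (fun i => ha _)
          rw [Fin.sum_univ_succ, Fin.sum_univ_succ]
          refine ⟨add_mem (hmem _ (ha 0)) h1, ?_⟩
          rw [hadd _ (hmem _ (ha 0)) _ h1, h2]
      have hva := congrArg Prod.fst hv
      have hvb := congrArg Prod.snd hv
      simp only [Prod.fst_sub, Prod.snd_sub, Prod.fst_sum, Prod.snd_sum] at hva hvb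
      refine ⟨∑ i, (a' i).1 - ∑ i, (b' i).1, ⟨a', b', ha', hb', ?_⟩, ?_⟩
      · ext
        · simp only [Prod.fst_sub, Prod.fst_sum]
        · simp only [Prod.snd_sub, Prod.snd_sum]
          rw [hvb]
          congr 1
          · exact Finset.sum_congr rfl fun i _ => by rw [← ha'' i]
          · exact Finset.sum_congr rfl fun i _ => by rw [← hb'' i]
      · rw [hsub _ (hsum k a' ha').1 _ (hsum k b' hb').1, (hsum k a' ha').2, (hsum k b' hb').2, hva]
        congr 1
        · exact Finset.sum_congr rfl fun i _ => by rw [← ha'' i]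
        · exact Finset.sum_congr rfl fun i _ => by rw [← hb'' i]
    exact (Set.ncard_le_ncard h3 ((Fb_finite hA).image _)).trans
      (Set.ncard_image_le (Fb_finite hA))

/-- subgroups -/
theorem good_of_injective {G₁ G₁' : Type} [AddCommGroup G₁] [AddCommGroup G₁'] {c C k : ℕ}
    (e : G₁ →+ G₁') (he : Function.Injective e) (h : Good G₁' c C k) : Good G₁ c C k := by
  apply good_local
  intro E D _ _
  refine ⟨G₁', inferInstance, h, e.comp (AddSubgroup.closure E).subtype, ?_⟩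
  intro w _ hw
  apply Subtype.ext
  apply he
  rw [AddSubgroup.coe_zero, map_zero]
  exact hw

/-- the trivial group -/
theorem good_trivial {G₁ : Type} [AddCommGroup G₁] [Subsingleton G₁] : Good G₁ 1 1 0 := by
  intro G₂ _ A hA hne
  refine ⟨A, subset_rfl, by simp, PUnit, inferInstance, inferInstance, fun _ => PUnit.unit, ?_, ?_⟩
  · intro x _ y _ z _ t _ _
    exact ⟨fun _ => rfl, fun _ => Subsingleton.elim _ _⟩
  · have : (Fb 0 A).Nonempty := ⟨0, Fin.elim0, Fin.elim0, fun i => i.elim0, fun i => i.elim0, by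
      simp⟩
    have h1 := (Set.ncard_pos (Fb_finite hA)).2 this
    rw [Nat.card_unique]
    omega

/-- products -/
theorem good_prod {G₁ V : Type} [AddCommGroup G₁] [AddCommGroup V] {c C k c' C' k' : ℕ}
    (h : Good G₁ c C k) (h' : Good V c' C' k') : Good (G₁ × V) (c * c') (C * C') (k + k') := by
  classical
  intro G₂ _ A hA hne
  set σ : (G₁ × V) × G₂ → V × (G₁ × G₂) := fun x => (x.1.2, (x.1.1, x.2)) with hσ
  have hσinj : Function.Injective σ := by
    rintro ⟨⟨g, v⟩, h⟩ ⟨⟨g', v'⟩, h'⟩ hh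
    simp only [hσ, Prod.mk.injEq] at hh
    obtain ⟨h1, h2, h3⟩ := hh
    subst h1 h2 h3
    rfl
  set A1 := σ '' A with hA1
  have hA1f : A1.Finite := hA.image _
  obtain ⟨A1', hA1', hc1, H1, _, _, ψ1, hF1, hH1⟩ := h' (G₁ × G₂) A1 hA1f (hne.image _)
  set τ : V × (G₁ × G₂) → G₁ × (H1 × G₂) := fun x => (x.2.1, (ψ1 x.1, x.2.2)) with hτ
  have hτinj : Set.InjOn τ A1' := by
    intro x hx y hy hxy
    simp only [hτ, Prod.mk.injEq] at hxy
    obtain ⟨h1, h2, h3⟩ := hxy
    exact hF1.inj hx hy h2 (Prod.ext h1 h3)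
  set B := τ '' A1' with hB
  have hA1'f : A1'.Finite := hA1f.subset hA1'
  have hne1 : A1'.Nonempty := by
    by_contra hno
    rw [Set.not_nonempty_iff_eq_empty] at hno
    rw [hno, Set.ncard_empty, mul_zero] at hc1
    have := (Set.ncard_pos hA1f).2 (hne.image σ)
    omega
  obtain ⟨B', hB', hc2, H2, _, _, ψ2, hF2, hH2⟩ := h (H1 × G₂) B (hA1'f.image _) (hne1.image _)
  set A'' : Set ((G₁ × V) × G₂) := {x ∈ A | σ x ∈ A1' ∧ τ (σ x) ∈ B'} with hA''
  have himg : (fun x => τ (σ x)) '' A'' = B' := by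
    ext y
    constructor
    · rintro ⟨x, hx, rfl⟩; exact hx.2.2
    · intro hy
      obtain ⟨x, hx, rfl⟩ := hB' hy
      obtain ⟨x', hx', rfl⟩ := hA1' hx
      exact ⟨x', ⟨hx', hx, hy⟩, rfl⟩
  have hinj : Set.InjOn (fun x => τ (σ x)) A'' := by
    intro x hx y hy hxy
    exact hσinj (hτinj hx.2.1 hy.2.1 hxy)
  refine ⟨A'', fun x hx => hx.1, ?_, H2 × H1, inferInstance, inferInstance,
    fun g => (ψ2 g.1, ψ1 g.2), ?_, ?_⟩
  · have e1 : A1.ncard = A.ncard := Set.ncard_image_of_injective _ hσinj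
    have e2 : B.ncard = A1'.ncard := hτinj.ncard_image
    have e3 : B'.ncard = A''.ncard := by rw [← himg]; exact hinj.ncard_image
    rw [← e1, ← e3]
    calc A1.ncard ≤ c' * A1'.ncard := hc1
      _ = c' * B.ncard := by rw [e2]
      _ ≤ c' * (c * B'.ncard) := Nat.mul_le_mul_left _ hc2
      _ = c * c' * B'.ncard := by ring
  · intro x hx y hy z hz t ht h2
    have k1 := hF1 _ hx.2.1 _ hy.2.1 _ hz.2.1 _ ht.2.1
    have k2 := hF2 _ hx.2.2 _ hy.2.2 _ hz.2.2 _ ht.2.2
    simp only [hσ, hτ] at k1 k2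
    constructor
    · intro hh
      have g1 : x.1.1 + y.1.1 = z.1.1 + t.1.1 := congrArg Prod.fst hh
      have g2 : x.1.2 + y.1.2 = z.1.2 + t.1.2 := congrArg Prod.snd hh
      have l1 := (k1 (Prod.ext g1 h2)).1 g2
      have l2 := (k2 (Prod.ext l1 h2)).1 g1
      exact Prod.ext l2 l1
    · intro hh
      have l2 : ψ2 x.1.1 + ψ2 y.1.1 = ψ2 z.1.1 + ψ2 t.1.1 := congrArg Prod.fst hh
      have l1 : ψ1 x.1.2 + ψ1 y.1.2 = ψ1 z.1.2 + ψ1 t.1.2 := congrArg Prod.snd hh
      have g1 := (k2 (Prod.ext l1 h2)).2 l2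
      have g2 := (k1 (Prod.ext g1 h2)).2 l1
      exact Prod.ext g1 g2
  · rw [Nat.card_prod]
    -- lifting of the fibre
    have hlift : ∀ g ∈ Fb k B, ∃ v : V, ((g, v), (0 : G₂)) ∈ Dk k A := by
      rintro g ⟨a, b, ha, hb, hg⟩
      have hex : ∀ x ∈ B, ∃ y ∈ A, τ (σ y) = x := by
        rintro x ⟨x', hx', rfl⟩
        obtain ⟨y, hy, rfl⟩ := hA1' hx'
        exact ⟨y, hy, rfl⟩
      choose a' ha' ha'' using fun i => hex _ (ha i)
      choose b' hb' hb'' using fun i => hex _ (hb i)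
      refine ⟨∑ i, (a' i).1.2 - ∑ i, (b' i).1.2, a', b', ha', hb', ?_⟩
      have hg1 := congrArg Prod.fst hg
      have hg2 := congrArg (fun x => x.2.2) hg
      simp only [Prod.fst_sub, Prod.snd_sub, Prod.fst_sum, Prod.snd_sum] at hg1 hg2
      ext
      · simp only [Prod.fst_sub, Prod.fst_sum]
        rw [hg1]
        congr 1
        · exact Finset.sum_congr rfl fun i _ => by rw [← ha'' i]
        · exact Finset.sum_congr rfl fun i _ => by rw [← hb'' i]
      · simp only [Prod.fst_sub, Prod.snd_sub, Prod.fst_sum, Prod.snd_sum]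
      · simp only [Prod.snd_sub, Prod.snd_sum]
        have : ((0 : H1 × G₂)).2 = (0 : G₂) := rfl
        rw [← this, hg2]
        congr 1
        · exact Finset.sum_congr rfl fun i _ => by rw [← ha'' i]
        · exact Finset.sum_congr rfl fun i _ => by rw [← hb'' i]
    choose! w hw using hlift
    have hQ : ∀ v ∈ Fb k' A1, (((0 : G₁), v), (0 : G₂)) ∈ Dk k' A := by
      rintro v ⟨a, b, ha, hb, hv⟩
      choose a' ha' ha'' using ha
      choose b' hb' hb'' using hb
      refine ⟨a', b', ha', hb', ?_⟩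
      have hg1 := congrArg Prod.fst hv
      have hg2 := congrArg (fun x => x.2.1) hv
      have hg3 := congrArg (fun x => x.2.2) hv
      simp only [Prod.fst_sub, Prod.snd_sub, Prod.fst_sum, Prod.snd_sum] at hg1 hg2 hg3
      ext
      · simp only [Prod.fst_sub, Prod.fst_sum]
        have : ((0 : G₁ × G₂)).1 = (0 : G₁) := rfl
        rw [← this, hg2]
        congr 1
        · exact Finset.sum_congr rfl fun i _ => by rw [← ha'' i]
        · exact Finset.sum_congr rfl fun i _ => by rw [← hb'' i]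
      · simp only [Prod.fst_sub, Prod.snd_sub, Prod.fst_sum, Prod.snd_sum]
        rw [hg1]
        congr 1
        · exact Finset.sum_congr rfl fun i _ => by rw [← ha'' i]
        · exact Finset.sum_congr rfl fun i _ => by rw [← hb'' i]
      · simp only [Prod.snd_sub, Prod.snd_sum]
        have : ((0 : G₁ × G₂)).2 = (0 : G₂) := rfl
        rw [← this, hg3]
        congr 1
        · exact Finset.sum_congr rfl fun i _ => by rw [← ha'' i]
        · exact Finset.sum_congr rfl fun i _ => by rw [← hb'' i]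
    have hBf : B.Finite := hA1'f.image _
    have hle : (Fb k B).ncard * (Fb k' A1).ncard ≤ (Fb (k + k') A).ncard := by
      rw [← Set.ncard_prod]
      refine Set.ncard_le_ncard_of_injOn (fun q : G₁ × V => (q.1, w q.1 + q.2)) ?_ ?_
        (Fb_finite hA)
      · rintro ⟨g, v⟩ ⟨hg, hv⟩
        have := Dk_add (hw g hg) (hQ v hv)
        simpa [Fb] using this
      · rintro ⟨g, v⟩ _ ⟨g', v'⟩ _ hh
        simp only [Prod.mk.injEq] at hh
        obtain ⟨rfl, hh⟩ := hh
        rw [add_left_cancel hh]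
    calc Nat.card H2 * Nat.card H1 ≤ (C * (Fb k B).ncard) * (C' * (Fb k' A1).ncard) :=
          Nat.mul_le_mul hH2 hH1
      _ = C * C' * ((Fb k B).ncard * (Fb k' A1).ncard) := by ring
      _ ≤ C * C' * (Fb (k + k') A).ncard := Nat.mul_le_mul_left _ hle

end Pool.Agent.H72.CE
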