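import Pool.Agent.H72.CE.Final

/-!
# Products of a torsion-free group and several cyclic groups: one Ruzsa step
-/

set_option autoImplicit false

namespace Pool.Agent.H72.CE

open Finset

/-- replace a cyclic factor by `ℤ` -/
theorem good_arc {G₁ : Type} [AddCommGroup G₁] {c C : ℕ} (hint : Good (G₁ × ℤ) c C 2) (M : ℕ) :
    Good (G₁ × ZMod M) (4 * c) C 2 := by
  classical
  rcases Nat.eq_zero_or_pos M with rfl | hM
  · exact hint.mono_c (by omega)
  have : NeZero M := ⟨hM.ne'⟩
  intro G₂ _ A hA hne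
  obtain ⟨θ, hθ⟩ := exists_shift hA.toFinset (fun x : (G₁ × ZMod M) × G₂ => x.1.2)
  set L := (M + 3) / 4 with hL
  have hL4 : 4 * (L - 1) ≤ M - 1 := by omega
  set A0 : Set ((G₁ × ZMod M) × G₂) := {x ∈ A | (x.1.2 + θ).val < L} with hA0
  have hA0f : A0.Finite := hA.subset (fun x hx => hx.1)
  have hA0c : A.ncard ≤ 4 * A0.ncard := by
    have h1 : A.ncard = hA.toFinset.card := Set.ncard_eq_toFinset_card A hA
    have h2 : A0.ncard = (hA.toFinset.filter (fun x => (x.1.2 + θ).val < L)).card := by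
      rw [← Set.ncard_coe_finset]
      congr 1
      ext x
      simp [hA0]
    rw [h1, h2]
    exact hθ
  have hA0ne : A0.Nonempty := by
    by_contra hno
    rw [Set.not_nonempty_iff_eq_empty] at hno
    rw [hno, Set.ncard_empty, mul_zero] at hA0c
    have := (Set.ncard_pos hA).2 hne
    omega
  set lam : ZMod M → ℤ := fun g => ((g + θ).val : ℤ) with hlam
  have hcast : ∀ g : ZMod M, ((lam g : ℤ) : ZMod M) = g + θ := by
    intro g
    rw [hlam]
    push_cast
    exact ZMod.natCast_zmod_val _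
  have hlaminj : Function.Injective lam := by
    intro g g' h
    have := congrArg (fun z : ℤ => (z : ZMod M)) h
    simp only [hcast] at this
    exact add_right_cancel this
  set τ : (G₁ × ZMod M) × G₂ → (G₁ × ℤ) × G₂ := fun x => ((x.1.1, lam x.1.2), x.2) with hτ
  have hτinj : Function.Injective τ := by
    intro x y hxy
    simp only [hτ, Prod.mk.injEq] at hxy
    exact Prod.ext (Prod.ext hxy.1.1 (hlaminj hxy.1.2)) hxy.2
  obtain ⟨B', hB', hcard, H, _, _, ψ, hFI, hH⟩ := hint G₂ (τ '' A0) (hA0f.image _)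
    (hA0ne.image _)
  have hbd : ∀ x ∈ A0, 0 ≤ lam x.1.2 ∧ lam x.1.2 ≤ (L : ℤ) - 1 := by
    intro x hx
    have h1 : (x.1.2 + θ).val < L := hx.2
    rw [hlam]
    constructor
    · exact Int.natCast_nonneg _
    · simp only; omega
  refine ⟨{x ∈ A0 | τ x ∈ B'}, fun x hx => hx.1.1, ?_, H, inferInstance, inferInstance,
    fun g => ψ (g.1, lam g.2), ?_, ?_⟩
  · have himg : τ '' {x ∈ A0 | τ x ∈ B'} = B' := by
      ext y
      constructor
      · rintro ⟨x, hx, rfl⟩; exact hx.2
      · intro hy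
        obtain ⟨x, hx, rfl⟩ := hB' hy
        exact ⟨x, ⟨hx, hy⟩, rfl⟩
    have e1 : (τ '' A0).ncard = A0.ncard := Set.ncard_image_of_injective _ hτinj
    have e2 : B'.ncard = {x ∈ A0 | τ x ∈ B'}.ncard := by
      rw [← himg, Set.ncard_image_of_injective _ hτinj, himg]
    rw [← e2]
    rw [e1] at hcard
    calc A.ncard ≤ 4 * A0.ncard := hA0c
      _ ≤ 4 * (c * B'.ncard) := Nat.mul_le_mul_left _ hcard
      _ = 4 * c * B'.ncard := by ring
  · intro x hx y hy z hz t ht h2
    have k := hFI _ hx.2 _ hy.2 _ hz.2 _ ht.2 h2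
    have bx := hbd x hx.1
    have by' := hbd y hy.1
    have bz := hbd z hz.1
    have bt := hbd t ht.1
    have k' : ((x.1.1, lam x.1.2) + (y.1.1, lam y.1.2) = (z.1.1, lam z.1.2) + (t.1.1, lam t.1.2) ↔
      ψ (x.1.1, lam x.1.2) + ψ (y.1.1, lam y.1.2) =
      ψ (z.1.1, lam z.1.2) + ψ (t.1.1, lam t.1.2)) := k
    rw [← k']
    have hc : ((lam x.1.2 + lam y.1.2 - (lam z.1.2 + lam t.1.2) : ℤ) : ZMod M) =
        x.1.2 + y.1.2 - (z.1.2 + t.1.2) := by
      push_cast
      rw [hcast, hcast, hcast, hcast]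
      ring
    constructor
    · intro h
      have h1 : x.1.1 + y.1.1 = z.1.1 + t.1.1 := congrArg Prod.fst h
      have h2 : x.1.2 + y.1.2 = z.1.2 + t.1.2 := congrArg Prod.snd h
      rw [h2, sub_self, ZMod.intCast_zmod_eq_zero_iff_dvd] at hc
      have := Int.eq_zero_of_abs_lt_dvd hc (by rw [abs_lt]; constructor <;> omega)
      exact Prod.ext h1 (by simp only [Prod.snd_add]; omega)
    · intro h
      have h1 : x.1.1 + y.1.1 = z.1.1 + t.1.1 := congrArg Prod.fst h
      have h2 : lam x.1.2 + lam y.1.2 = lam z.1.2 + lam t.1.2 := congrArg Prod.snd h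
      rw [h2, sub_self, Int.cast_zero] at hc
      exact Prod.ext h1 (sub_eq_zero.1 hc.symm)
  · refine hH.trans (Nat.mul_le_mul_left _ ?_)
    refine Set.ncard_le_ncard_of_injOn (fun z : G₁ × ℤ => (z.1, (z.2 : ZMod M))) ?_ ?_
      (Fb_finite hA)
    · rintro n ⟨a, b, ha, hb, hn⟩
      choose a' ha' ha'' using ha
      choose b' hb' hb'' using hb
      refine ⟨a', b', fun i => (ha' i).1, fun i => (hb' i).1, ?_⟩
      have h0 := congrArg (fun x => x.1.1) hn
      have h1 := congrArg (fun x => x.1.2) hn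
      have h2 := congrArg Prod.snd hn
      simp only [Fin.sum_univ_two, Prod.fst_sub, Prod.snd_sub, Prod.fst_add, Prod.snd_add]
        at h0 h1 h2
      rw [← ha'' 0, ← ha'' 1, ← hb'' 0, ← hb'' 1] at h0 h1 h2
      simp only [hτ] at h0 h1 h2
      ext
      · simp only [Fin.sum_univ_two, Prod.fst_sub, Prod.fst_add]
        exact h0
      · simp only [Fin.sum_univ_two, Prod.fst_sub, Prod.fst_add, Prod.snd_sub, Prod.snd_add]
        rw [h1]
        push_cast
        rw [hcast, hcast, hcast, hcast]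
        ring
      · simp only [Fin.sum_univ_two, Prod.snd_sub, Prod.snd_add]
        exact h2
    · have hbound : ∀ n ∈ Fb 2 (τ '' A0), -(2 * ((L : ℤ) - 1)) ≤ n.2 ∧
          n.2 ≤ 2 * ((L : ℤ) - 1) := by
        rintro n ⟨a, b, ha, hb, hn⟩
        have h1 := congrArg (fun x => x.1.2) hn
        simp only [Fin.sum_univ_two, Prod.fst_sub, Prod.fst_add, Prod.snd_sub, Prod.snd_add] at h1
        have hb0 : ∀ y ∈ τ '' A0, 0 ≤ y.1.2 ∧ y.1.2 ≤ (L : ℤ) - 1 := by
          rintro _ ⟨x, hx, rfl⟩
          exact hbd x hx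
        have := hb0 _ (ha 0)
        have := hb0 _ (ha 1)
        have := hb0 _ (hb 0)
        have := hb0 _ (hb 1)
        constructor <;> omega
      intro n hn n' hn' hnn
      have b1 := hbound n hn
      have b2 := hbound n' hn'
      have h0 : n.1 = n'.1 := (Prod.ext_iff.1 hnn).1
      have h1 : ((n.2 - n'.2 : ℤ) : ZMod M) = 0 := by
        push_cast
        rw [sub_eq_zero]
        exact (Prod.ext_iff.1 hnn).2
      rw [ZMod.intCast_zmod_eq_zero_iff_dvd] at h1
      have := Int.eq_zero_of_abs_lt_dvd h1 (by rw [abs_lt]; constructor <;> omega)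
      exact Prod.ext h0 (by omega)

/-- a torsion-free group and several cyclic groups -/
theorem good_box (r : ℕ) : ∀ (F : Type) [AddCommGroup F] (M : Fin r → ℕ),
    (∀ (n : ℕ) (x : F), n ≠ 0 → n • x = 0 → x = 0) →
    Good (F × (∀ i, ZMod (M i))) (4 ^ (r + 1)) 4 2 := by
  induction r with
  | zero =>
    intro F _ M hF
    refine good_of_injective (AddMonoidHom.fst F (∀ i, ZMod (M i))) ?_ (good_torsionFree hF)
    intro x y h
    exact Prod.ext h (Subsingleton.elim _ _)
  | succ r ih =>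
    intro F _ M hF
    have h1 : Good ((F × ℤ) × (∀ i : Fin r, ZMod (M i.succ))) (4 ^ (r + 1)) 4 2 := by
      apply ih
      intro n x hn h
      have h2 : n • x.1 = 0 := congrArg Prod.fst h
      have h3 : n • x.2 = 0 := congrArg Prod.snd h
      rw [nsmul_eq_mul, mul_eq_zero] at h3
      refine Prod.ext (hF n _ hn h2) ?_
      rcases h3 with h3 | h3
      · exact absurd (by exact_mod_cast h3) hn
      · exact h3
    have h2 : Good ((F × (∀ i : Fin r, ZMod (M i.succ))) × ℤ) (4 ^ (r + 1)) 4 2 := by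
      refine good_of_injective (AddMonoidHom.mk'
        (fun x : (F × (∀ i : Fin r, ZMod (M i.succ))) × ℤ => ((x.1.1, x.2), x.1.2)) ?_) ?_ h1
      · intro x y; rfl
      · intro x y h
        have e1 : ((x.1.1, x.2), x.1.2) = ((y.1.1, y.2), y.1.2) := h
        simp only [Prod.mk.injEq] at e1
        exact Prod.ext (Prod.ext e1.1.1 e1.2) e1.1.2
    have h3 := good_arc h2 (M 0)
    rw [pow_succ, mul_comm]
    refine good_of_injective (AddMonoidHom.mk'
      (fun x : F × (∀ i, ZMod (M i)) => ((x.1, fun i : Fin r => x.2 i.succ), x.2 0)) ?_) ?_ h3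
    · intro x y; rfl
    · intro x y h
      have e1 : ((x.1, fun i : Fin r => x.2 i.succ), x.2 0) =
        ((y.1, fun i : Fin r => y.2 i.succ), y.2 0) := h
      simp only [Prod.mk.injEq] at e1
      refine Prod.ext e1.1.1 ?_
      funext i
      refine Fin.cases ?_ (fun j => ?_) i
      · exact e1.2
      · exact congrFun e1.1.2 j

end Pool.Agent.H72.CE
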