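import Pool.Agent.H72.CE.Select

/-!
# Counting the vectors of `2A - 2A` in the small subspaces
-/

set_option autoImplicit false

namespace Pool.Agent.H72.CE

open Finset

/-- the sum of the sets `D_i` is direct -/
theorem direct_count {E : Type} [AddCommGroup E] {ι : Type} [DecidableEq ι] (V : ι → Type)
    [∀ i, AddCommGroup (V i)] (A : Set (E × ∀ i, V i)) (hA : A.Finite) (J : Finset ι) :
    ∀ m : ℕ, (∏ i ∈ J, {v : V i | ((0 : E), (Pi.single i v : ∀ i, V i)) ∈ Dk 2 A}.ncard) *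
      {d : E × ∀ i, V i | d ∈ Dk m A ∧ ∀ i ∈ J, d.2 i = 0}.ncard ≤
        (Dk (m + 2 * J.card) A).ncard := by
  induction J using Finset.induction_on with
  | empty =>
    intro m
    simp
  | insert j J hj ih =>
    intro m
    rw [Finset.prod_insert hj, Finset.card_insert_of_notMem hj]
    set Dj : Set (V j) := {v : V j | ((0 : E), (Pi.single j v : ∀ i, V i)) ∈ Dk 2 A} with hDj
    have hfin : {d : E × ∀ i, V i | d ∈ Dk (m + 2) A ∧ ∀ i ∈ J, d.2 i = 0}.Finite :=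
      (Dk_finite hA).subset (fun d hd => hd.1)
    have hstep : Dj.ncard * {d : E × ∀ i, V i | d ∈ Dk m A ∧ ∀ i ∈ insert j J, d.2 i = 0}.ncard ≤
        {d : E × ∀ i, V i | d ∈ Dk (m + 2) A ∧ ∀ i ∈ J, d.2 i = 0}.ncard := by
      rw [← Set.ncard_prod]
      refine Set.ncard_le_ncard_of_injOn
        (fun q : V j × (E × ∀ i, V i) => q.2 + ((0 : E), (Pi.single j q.1 : ∀ i, V i))) ?_ ?_ hfin
      · rintro ⟨v, d⟩ ⟨hv, hd1, hd2⟩
        refine ⟨Dk_add hd1 hv, ?_⟩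
        intro i hi
        have hij : i ≠ j := by
          rintro rfl
          exact hj hi
        have h1 := hd2 i (Finset.mem_insert_of_mem hi)
        simp only [Prod.snd_add, Pi.add_apply]
        rw [h1, Pi.single_eq_of_ne hij, add_zero]
      · rintro ⟨v, d⟩ ⟨hv, hd1, hd2⟩ ⟨v', d'⟩ ⟨hv', hd1', hd2'⟩ hh
        have h1 : v = v' := by
          have h2 := congrArg (fun x : E × ∀ i, V i => x.2 j) hh
          simp only [Prod.snd_add, Pi.add_apply, Pi.single_eq_same] at h2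
          rw [hd2 j (Finset.mem_insert_self _ _), hd2' j (Finset.mem_insert_self _ _), zero_add,
            zero_add] at h2
          exact h2
        subst h1
        have h3 : d = d' := add_right_cancel hh
        rw [h3]
    calc Dj.ncard * (∏ i ∈ J, {v : V i | ((0 : E), (Pi.single i v : ∀ i, V i)) ∈ Dk 2 A}.ncard) *
          {d : E × ∀ i, V i | d ∈ Dk m A ∧ ∀ i ∈ insert j J, d.2 i = 0}.ncard
        = (∏ i ∈ J, {v : V i | ((0 : E), (Pi.single i v : ∀ i, V i)) ∈ Dk 2 A}.ncard) *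
          (Dj.ncard * {d : E × ∀ i, V i | d ∈ Dk m A ∧ ∀ i ∈ insert j J, d.2 i = 0}.ncard) := by
          ring
      _ ≤ (∏ i ∈ J, {v : V i | ((0 : E), (Pi.single i v : ∀ i, V i)) ∈ Dk 2 A}.ncard) *
          {d : E × ∀ i, V i | d ∈ Dk (m + 2) A ∧ ∀ i ∈ J, d.2 i = 0}.ncard :=
          Nat.mul_le_mul_left _ hstep
      _ ≤ (Dk (m + 2 + 2 * J.card) A).ncard := ih (m + 2)
      _ = _ := by
          have : m + 2 + 2 * J.card = m + 2 * (J.card + 1) := by ring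
          rw [this]

/-- `∑ p⁻² ≤ 1` over distinct primes -/
theorem sum_inv_sq_le {ι : Type} (s : Finset ι) (p : ι → ℕ) (hp : ∀ i, (p i).Prime)
    (hinj : Function.Injective p) : ∑ i ∈ s, (((p i : ℕ) : ℝ) ^ 2)⁻¹ ≤ 1 := by
  classical
  have h1 : ∑ i ∈ s, (((p i : ℕ) : ℝ) ^ 2)⁻¹ = ∑ n ∈ s.image p, (((n : ℕ) : ℝ) ^ 2)⁻¹ := by
    rw [Finset.sum_image (fun a _ b _ h => hinj h)]
  rw [h1]
  obtain ⟨N, hN⟩ : ∃ N : ℕ, ∀ n ∈ s.image p, n ≤ N := ⟨(s.image p).sup id, fun n hn =>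
    Finset.le_sup (f := id) hn⟩
  have hsub : s.image p ⊆ Finset.Ioc 1 (N + 1) := by
    intro n hn
    obtain ⟨i, hi, rfl⟩ := Finset.mem_image.1 hn
    rw [Finset.mem_Ioc]
    have h2 := hN _ hn
    have h3 := (hp i).one_lt
    exact ⟨h3, by omega⟩
  calc ∑ n ∈ s.image p, (((n : ℕ) : ℝ) ^ 2)⁻¹ ≤ ∑ n ∈ Finset.Ioc 1 (N + 1), (((n : ℕ) : ℝ) ^ 2)⁻¹ :=
        Finset.sum_le_sum_of_subset_of_nonneg hsub (fun _ _ _ => by positivity)
    _ ≤ ((1 : ℕ) : ℝ)⁻¹ - ((N + 1 : ℕ) : ℝ)⁻¹ := sum_Ioc_inv_sq_le_sub one_ne_zero (by omega)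
    _ ≤ 1 := by
        have : (0 : ℝ) ≤ ((N + 1 : ℕ) : ℝ)⁻¹ := by positivity
        simp only [Nat.cast_one, inv_one]
        linarith

/-- an elementary product bound -/
theorem prod_one_add_le_two {ι : Type} (s : Finset ι) (x : ι → ℝ) (hx : ∀ i ∈ s, 0 ≤ x i)
    (hs : ∑ i ∈ s, x i ≤ 1 / 2) : ∏ i ∈ s, (1 + x i) ≤ 2 := by
  have h1 : ∏ i ∈ s, (1 + x i) ≤ Real.exp (∑ i ∈ s, x i) := by
    rw [Real.exp_sum]
    apply Finset.prod_le_prod
    · intro i hi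
      have := hx i hi
      linarith
    · intro i _
      have := Real.add_one_le_exp (x i)
      linarith
  have h2 : Real.exp (∑ i ∈ s, x i) ≤ Real.exp (1 / 2) := Real.exp_le_exp.2 hs
  have h3 : Real.exp (1 / 2) ≤ 2 := by
    have h4 : Real.exp (1 / 2) * Real.exp (1 / 2) = Real.exp 1 := by
      rw [← Real.exp_add]
      norm_num
    have h5 := Real.exp_one_lt_d9
    have h6 := Real.exp_pos (1 / 2)
    nlinarith
  linarith

/-- The choice of the subspaces. -/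
theorem exists_small_subspaces {E : Type} [AddCommGroup E] {ι : Type} [Fintype ι] [DecidableEq ι]
    (p : ι → ℕ) (hp : ∀ i, (p i).Prime) (hinj : Function.Injective p) (V : ι → Type)
    [∀ i, AddCommGroup (V i)] [∀ i, Module (ZMod (p i)) (V i)] [∀ i, Finite (V i)]
    (A : Set (E × ∀ i, V i)) (hA : A.Finite) (K : ℝ) (hK1 : 1 ≤ K)
    (hK : ∀ k, ((Dk k A).ncard : ℝ) ≤ K ^ (2 * k) * A.ncard)
    (hbig : ∀ i, Nat.card (V i) ≤
      p i * {v : V i | ((0 : E), (Pi.single i v : ∀ i, V i)) ∈ Dk 2 A}.ncard)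
    (m : ℕ) (hm : K ^ 4 ≤ 2 ^ m) :
    ∃ U : ∀ i, Submodule (ZMod (p i)) (V i),
      (∀ i, Module.finrank (ZMod (p i)) (U i) ≤ m + 4) ∧
      ((∏ i, Nat.card (V i ⧸ U i) : ℕ) : ℝ) *
        ({d : E × ∀ i, V i | d ∈ Dk 2 A ∧ ∀ i, d.2 i ∈ U i}.ncard : ℝ) ≤
          2 * K ^ 4 * A.ncard := by
  classical
  set X : Finset (E × ∀ i, V i) := (Dk_finite (k := 2) hA).toFinset with hX
  have hXmem : ∀ d, d ∈ X ↔ d ∈ Dk 2 A := fun d => by rw [hX, Set.Finite.mem_toFinset]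
  set n : ι → ℕ := fun i => Module.finrank (ZMod (p i)) (V i) with hn
  set t : ι → ℕ := fun i => p i ^ (n i - (m + 4)) with ht
  set B : Finset ι := univ.filter (fun i => m + 4 < n i) with hB
  set Dc : ι → ℕ := fun i =>
    {v : V i | ((0 : E), (Pi.single i v : ∀ i, V i)) ∈ Dk 2 A}.ncard with hDc
  obtain ⟨U, hU1, hU2⟩ := exists_select_all p hp V X (fun d => d.2) (m + 4) univ (fun _ => 1)
  refine ⟨U, fun i => (hU1 i (mem_univ i)).1, ?_⟩
  have hcardq : (∏ i, Nat.card (V i ⧸ U i)) = ∏ i, t i :=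
    Finset.prod_congr rfl fun i _ => (hU1 i (mem_univ i)).2
  have hcount : {d : E × ∀ i, V i | d ∈ Dk 2 A ∧ ∀ i, d.2 i ∈ U i}.ncard =
      ∑ x ∈ X, (if ∀ i ∈ univ, x.2 i ∈ U i then 1 else 0) := by
    rw [← Finset.sum_filter, Finset.sum_const, smul_eq_mul, mul_one, ← Set.ncard_coe_finset]
    congr 1
    ext d
    simp [hXmem]
  rw [hcardq, hcount]
  -- the bound of `t i`
  have htD : ∀ i ∈ B, (t i : ℝ) ≤ Dc i * (((p i : ℕ) : ℝ) ^ (m + 3))⁻¹ := by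
    intro i hi
    have hi' : m + 4 < n i := (Finset.mem_filter.1 hi).2
    have : Fact (p i).Prime := ⟨hp i⟩
    have h1 : Nat.card (V i) = p i ^ n i := by
      rw [Module.natCard_eq_pow_finrank (K := ZMod (p i)) (V := V i), Nat.card_zmod]
    have h2 := hbig i
    rw [h1] at h2
    have h3 : p i ^ n i = p i * (t i * p i ^ (m + 3)) := by
      rw [ht]
      simp only
      rw [← pow_add, ← pow_succ']
      congr 1
      omega
    rw [h3] at h2
    have h4 : t i * p i ^ (m + 3) ≤ Dc i := Nat.le_of_mul_le_mul_left h2 (hp i).pos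
    have h5 : (0 : ℝ) < ((p i : ℕ) : ℝ) ^ (m + 3) := by
      have := (hp i).pos
      positivity
    rw [← div_eq_mul_inv, le_div_iff₀ h5]
    exact_mod_cast h4
  -- the sum
  have hexp : ∀ x ∈ X, (∏ i ∈ univ, if x.2 i = 0 then t i else 1) ≤
      ∑ J ∈ B.powerset, (if ∀ i ∈ J, x.2 i = 0 then ∏ i ∈ J, t i else 0) := by
    intro x _
    have h1 : (∏ i ∈ univ, if x.2 i = 0 then t i else 1) ≤
        ∏ i ∈ B, (1 + if x.2 i = 0 then t i else 0) := by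
      rw [← Finset.prod_subset (Finset.subset_univ B)]
      · apply Finset.prod_le_prod
        · intro i _; exact Nat.zero_le _
        · intro i _
          split_ifs <;> omega
      · intro i _ hi
        have hi' : ¬ (m + 4 < n i) := fun h => hi (Finset.mem_filter.2 ⟨mem_univ _, h⟩)
        have h2 : t i = 1 := by
          rw [ht]
          simp only
          rw [Nat.sub_eq_zero_of_le (by omega), pow_zero]
        rw [h2]
        simp
    refine h1.trans (le_of_eq ?_)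
    rw [Finset.prod_one_add]
    refine Finset.sum_congr rfl fun J _ => ?_
    split_ifs with hJ
    · exact Finset.prod_congr rfl fun i hi => if_pos (hJ i hi)
    · push Not at hJ
      obtain ⟨i, hi, hi'⟩ := hJ
      exact Finset.prod_eq_zero hi (if_neg hi')
  have hmain : ∀ J ∈ B.powerset,
      ((∑ x ∈ X, (if ∀ i ∈ J, x.2 i = 0 then ∏ i ∈ J, t i else 0) : ℕ) : ℝ) ≤
        (K ^ 4 * A.ncard) * ∏ i ∈ J, (K ^ 4 * (((p i : ℕ) : ℝ) ^ (m + 3))⁻¹) := by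
    intro J hJ
    have hJB : J ⊆ B := Finset.mem_powerset.1 hJ
    have h1 : (∑ x ∈ X, (if ∀ i ∈ J, x.2 i = 0 then ∏ i ∈ J, t i else 0)) =
        (∏ i ∈ J, t i) * {d : E × ∀ i, V i | d ∈ Dk 2 A ∧ ∀ i ∈ J, d.2 i = 0}.ncard := by
      rw [← Finset.sum_filter, Finset.sum_const, smul_eq_mul, mul_comm, ← Set.ncard_coe_finset]
      congr 2
      ext d
      simp [hXmem]
    rw [h1]
    push_cast
    set q : ℕ := {d : E × ∀ i, V i | d ∈ Dk 2 A ∧ ∀ i ∈ J, d.2 i = 0}.ncard with hq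
    have h2 : (∏ i ∈ J, (t i : ℝ)) ≤ (∏ i ∈ J, (Dc i : ℝ)) * ∏ i ∈ J, (((p i : ℕ) : ℝ) ^ (m + 3))⁻¹ := by
      rw [← Finset.prod_mul_distrib]
      exact Finset.prod_le_prod (fun _ _ => Nat.cast_nonneg _) fun i hi => htD i (hJB hi)
    have h3 : ((∏ i ∈ J, (Dc i : ℝ)) * q) ≤ K ^ (2 * (2 + 2 * J.card)) * A.ncard := by
      have h4 := direct_count V A hA J 2
      have h5 : (((∏ i ∈ J, Dc i) * q : ℕ) : ℝ) ≤ ((Dk (2 + 2 * J.card) A).ncard : ℝ) := by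
        exact_mod_cast h4
      have h6 := h5.trans (hK _)
      push_cast at h6
      exact h6
    have h7 : (0 : ℝ) ≤ ∏ i ∈ J, (((p i : ℕ) : ℝ) ^ (m + 3))⁻¹ :=
      Finset.prod_nonneg fun i _ => by positivity
    calc (∏ i ∈ J, (t i : ℝ)) * (q : ℝ)
        ≤ ((∏ i ∈ J, (Dc i : ℝ)) * ∏ i ∈ J, (((p i : ℕ) : ℝ) ^ (m + 3))⁻¹) * q :=
          mul_le_mul_of_nonneg_right h2 (Nat.cast_nonneg _)
      _ = ((∏ i ∈ J, (Dc i : ℝ)) * q) * ∏ i ∈ J, (((p i : ℕ) : ℝ) ^ (m + 3))⁻¹ := by ring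
      _ ≤ (K ^ (2 * (2 + 2 * J.card)) * A.ncard) * ∏ i ∈ J, (((p i : ℕ) : ℝ) ^ (m + 3))⁻¹ :=
          mul_le_mul_of_nonneg_right h3 h7
      _ = _ := by
          rw [Finset.prod_mul_distrib, Finset.prod_const]
          have : K ^ (2 * (2 + 2 * J.card)) = K ^ 4 * (K ^ 4) ^ J.card := by
            rw [← pow_mul, ← pow_add]
            congr 1
            ring
          rw [this]
          ring
  have hnat : (∏ i, t i) * (∑ x ∈ X, (if ∀ i ∈ univ, x.2 i ∈ U i then 1 else 0)) ≤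
      ∑ J ∈ B.powerset, ∑ x ∈ X, (if ∀ i ∈ J, x.2 i = 0 then ∏ i ∈ J, t i else 0) := by
    have h0 : (∏ i, t i) * (∑ x ∈ X, (if ∀ i ∈ univ, x.2 i ∈ U i then 1 else 0)) ≤
        ∑ x ∈ X, (∏ i ∈ univ, if x.2 i = 0 then t i else 1) * 1 := by
      convert hU2
    refine h0.trans ?_
    rw [Finset.sum_comm]
    apply Finset.sum_le_sum
    intro x hx
    rw [mul_one]
    exact hexp x hx
  have hreal : (((∏ i, t i) * (∑ x ∈ X, (if ∀ i ∈ univ, x.2 i ∈ U i then 1 else 0)) : ℕ) : ℝ) ≤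
      (K ^ 4 * A.ncard) * ∏ i ∈ B, (1 + K ^ 4 * (((p i : ℕ) : ℝ) ^ (m + 3))⁻¹) := by
    refine (Nat.cast_le.2 hnat).trans ?_
    rw [Nat.cast_sum, Finset.prod_one_add, Finset.mul_sum]
    exact Finset.sum_le_sum hmain
  have hfin2 : ∏ i ∈ B, (1 + K ^ 4 * (((p i : ℕ) : ℝ) ^ (m + 3))⁻¹) ≤ 2 := by
    apply prod_one_add_le_two
    · intro i _
      positivity
    · have h1 : ∀ i ∈ B, K ^ 4 * (((p i : ℕ) : ℝ) ^ (m + 3))⁻¹ ≤
          (1 / 2) * (((p i : ℕ) : ℝ) ^ 2)⁻¹ := by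
        intro i _
        have h2 : (2 : ℝ) ≤ ((p i : ℕ) : ℝ) := by exact_mod_cast (hp i).two_le
        have h3 : (2 : ℝ) ^ (m + 1) ≤ ((p i : ℕ) : ℝ) ^ (m + 1) :=
          pow_le_pow_left₀ (by norm_num) h2 _
        have h4 : ((p i : ℕ) : ℝ) ^ (m + 3) = ((p i : ℕ) : ℝ) ^ (m + 1) * ((p i : ℕ) : ℝ) ^ 2 := by
          rw [← pow_add]
        have h5 : (0 : ℝ) < ((p i : ℕ) : ℝ) ^ (m + 1) := by positivity
        rw [h4, mul_inv, ← mul_assoc]
        apply mul_le_mul_of_nonneg_right _ (by positivity)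
        rw [← div_eq_mul_inv, div_le_iff₀ h5]
        calc K ^ 4 ≤ 2 ^ m := hm
          _ = 1 / 2 * 2 ^ (m + 1) := by rw [pow_succ]; ring
          _ ≤ 1 / 2 * ((p i : ℕ) : ℝ) ^ (m + 1) := by linarith
      calc ∑ i ∈ B, K ^ 4 * (((p i : ℕ) : ℝ) ^ (m + 3))⁻¹
          ≤ ∑ i ∈ B, (1 / 2) * (((p i : ℕ) : ℝ) ^ 2)⁻¹ := Finset.sum_le_sum h1
        _ = (1 / 2) * ∑ i ∈ B, (((p i : ℕ) : ℝ) ^ 2)⁻¹ := by rw [Finset.mul_sum]
        _ ≤ (1 / 2) * 1 := by
            apply mul_le_mul_of_nonneg_left (sum_inv_sq_le B p hp hinj) (by norm_num)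
        _ = 1 / 2 := by norm_num
  have hnn : (0 : ℝ) ≤ K ^ 4 * A.ncard := by positivity
  have := mul_le_mul_of_nonneg_left hfin2 hnn
  push_cast at hreal ⊢
  linarith

end Pool.Agent.H72.CE
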