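import Pool.Agent.H72.CE.Basic

/-!
# Elementary abelian groups have good models, uniformly in the prime
-/

set_option autoImplicit false

namespace Pool.Agent.H72.CE

open Finset

/-- A linear map which avoids a small set at all the vectors of `D`. -/
theorem exists_avoid {p : ℕ} [Fact p.Prime] {V W : Type} [AddCommGroup V] [AddCommGroup W]
    [Module (ZMod p) V] [Module (ZMod p) W] [Finite V] [Fintype W] [DecidableEq W] (D : Finset V)
    (hD : (0 : V) ∉ D) (S : Finset W) (h : D.card * S.card < Fintype.card W) :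
    ∃ f : V →ₗ[ZMod p] W, ∀ d ∈ D, f d ∉ S := by
  classical
  have : Finite (V →ₗ[ZMod p] W) := Finite.of_injective (fun f : V →ₗ[ZMod p] W => (f : V → W))
    DFunLike.coe_injective
  have := Fintype.ofFinite (V →ₗ[ZMod p] W)
  by_contra hno
  push Not at hno
  have hfib : ∀ d ∈ D, (univ.filter (fun f : V →ₗ[ZMod p] W => f d ∈ S)).card * Fintype.card W =
      S.card * Fintype.card (V →ₗ[ZMod p] W) := by
    intro d hd
    have hd0 : d ≠ 0 := by rintro rfl; exact hD hd
    set ev : (V →ₗ[ZMod p] W) →+ W := LinearMap.evalAddMonoidHom d with hev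
    have hevd : ∀ f, ev f = f d := fun f => rfl
    have hsurj : ∀ w : W, w ∈ Set.range ev := by
      intro w
      have hφ : ∃ φ : Module.Dual (ZMod p) V, φ d ≠ 0 := by
        by_contra hno
        push Not at hno
        exact hd0 ((Module.forall_dual_apply_eq_zero_iff (ZMod p) d).1 hno)
      obtain ⟨φ, hφ⟩ := hφ
      refine ⟨φ.smulRight ((φ d)⁻¹ • w), ?_⟩
      rw [hevd, LinearMap.smulRight_apply, smul_smul, mul_inv_cancel₀ hφ, one_smul]
    have hc : ∀ w : W, (univ.filter (fun f : V →ₗ[ZMod p] W => f d = w)).card =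
        (univ.filter (fun f : V →ₗ[ZMod p] W => f d = 0)).card := fun w =>
      AddMonoidHom.card_fiber_eq_of_mem_range ev (hsurj w) (hsurj 0)
    have h1 : Fintype.card (V →ₗ[ZMod p] W) =
        Fintype.card W * (univ.filter (fun f : V →ₗ[ZMod p] W => f d = 0)).card := by
      rw [← Finset.card_univ, Finset.card_eq_sum_card_fiberwise
        (f := fun f : V →ₗ[ZMod p] W => f d) (t := univ) (fun _ _ => Finset.mem_coe.2 (mem_univ _))]
      rw [Finset.sum_congr rfl (fun w _ => hc w), Finset.sum_const, smul_eq_mul, Finset.card_univ]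
    have h2 : (univ.filter (fun f : V →ₗ[ZMod p] W => f d ∈ S)).card =
        S.card * (univ.filter (fun f : V →ₗ[ZMod p] W => f d = 0)).card := by
      rw [Finset.card_eq_sum_card_fiberwise (f := fun f : V →ₗ[ZMod p] W => f d) (t := S)
        (fun f hf => by simpa using hf)]
      have : ∀ w ∈ S, ((univ.filter (fun f : V →ₗ[ZMod p] W => f d ∈ S)).filter
          (fun f : V →ₗ[ZMod p] W => f d = w)).card =
          (univ.filter (fun f : V →ₗ[ZMod p] W => f d = 0)).card := by
        intro w hw
        rw [← hc w]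
        congr 1
        ext f
        simp only [Finset.mem_filter, Finset.mem_univ, true_and]
        constructor
        · exact fun h => h.2
        · exact fun h => ⟨h ▸ hw, h⟩
      rw [Finset.sum_congr rfl this, Finset.sum_const, smul_eq_mul]
    rw [h1, h2]
    ring
  have hcover : (univ : Finset (V →ₗ[ZMod p] W)) ⊆
      D.biUnion (fun d => univ.filter (fun f : V →ₗ[ZMod p] W => f d ∈ S)) := by
    intro f _
    obtain ⟨d, hd, hf⟩ := hno f
    exact Finset.mem_biUnion.2 ⟨d, hd, by simpa using hf⟩
  have h3 := (Finset.card_le_card hcover).trans Finset.card_biUnion_le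
  rw [Finset.card_univ] at h3
  have h4 : Fintype.card (V →ₗ[ZMod p] W) * Fintype.card W ≤
      D.card * S.card * Fintype.card (V →ₗ[ZMod p] W) := by
    calc Fintype.card (V →ₗ[ZMod p] W) * Fintype.card W
        ≤ (∑ d ∈ D, (univ.filter (fun f : V →ₗ[ZMod p] W => f d ∈ S)).card) *
            Fintype.card W := Nat.mul_le_mul_right _ h3
      _ = ∑ d ∈ D, S.card * Fintype.card (V →ₗ[ZMod p] W) := by
          rw [Finset.sum_mul]; exact Finset.sum_congr rfl hfib
      _ = D.card * S.card * Fintype.card (V →ₗ[ZMod p] W) := by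
          rw [Finset.sum_const, smul_eq_mul, mul_assoc]
  have hpos : 0 < Fintype.card (V →ₗ[ZMod p] W) := Fintype.card_pos
  have h5 : Fintype.card W ≤ D.card * S.card := by
    by_contra hlt
    push Not at hlt
    have := Nat.mul_lt_mul_of_pos_left hlt hpos
    nlinarith
  omega

/-- the number of residues whose least absolute representative is divisible by `N` -/
theorem card_mult {p N : ℕ} [NeZero p] (hN : 0 < N) (hNp : N ≤ p) :
    (univ.filter (fun j : ZMod p => (N : ℤ) ∣ j.valMinAbs)).card * N < 2 * p := by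
  have hle : (univ.filter (fun j : ZMod p => (N : ℤ) ∣ j.valMinAbs)).card ≤ 2 * (p / (2 * N)) + 1 := by
    have h1 : (univ.filter (fun j : ZMod p => (N : ℤ) ∣ j.valMinAbs)).card ≤
        (Finset.Icc (-((p / (2 * N) : ℕ) : ℤ)) ((p / (2 * N) : ℕ) : ℤ)).card := by
      apply Finset.card_le_card_of_injOn (fun j => j.valMinAbs / (N : ℤ))
      · intro j hj
        rw [Finset.mem_coe, Finset.mem_filter] at hj
        obtain ⟨q, hq⟩ := hj.2
        have h2 := ZMod.natAbs_valMinAbs_le j
        rw [Finset.mem_coe, Finset.mem_Icc]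
        simp only [hq]
        rw [Int.mul_ediv_cancel_left _ (by exact_mod_cast hN.ne')]
        rw [hq, Int.natAbs_mul, Int.natAbs_natCast] at h2
        have h3 : q.natAbs ≤ p / (2 * N) := by
          rw [Nat.le_div_iff_mul_le (by omega)]
          have := Nat.div_mul_le_self p 2
          nlinarith
        omega
      · intro j hj j' hj' hjj
        rw [Finset.mem_coe, Finset.mem_filter] at hj hj'
        obtain ⟨q, hq⟩ := hj.2
        obtain ⟨q', hq'⟩ := hj'.2
        simp only [hq, hq', Int.mul_ediv_cancel_left _ (show (N : ℤ) ≠ 0 by exact_mod_cast hN.ne')] at hjj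
        apply ZMod.injective_valMinAbs
        rw [hq, hq', hjj]
    refine h1.trans ?_
    rw [Int.card_Icc]
    omega
  have h2 : 2 * N * (p / (2 * N)) ≤ p := Nat.mul_div_le p (2 * N)
  rcases Nat.lt_or_ge N p with h | h
  · nlinarith
  · have hNeq : N = p := le_antisymm hNp h
    subst hNeq
    have : N / (2 * N) = 0 := Nat.div_eq_of_lt (by omega)
    rw [this] at hle
    nlinarith

/-- a shift which keeps a quarter of `A` in a short interval -/
theorem exists_shift {p : ℕ} [NeZero p] {α : Type} (A : Finset α) (ξ : α → ZMod p) :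
    ∃ θ : ZMod p, A.card ≤ 4 * (A.filter (fun x => (ξ x + θ).val < (p + 3) / 4)).card := by
  classical
  by_contra hno
  push Not at hno
  have hp : 0 < p := Nat.pos_of_ne_zero (NeZero.ne p)
  have h1 : ∑ θ : ZMod p, 4 * (A.filter (fun x => (ξ x + θ).val < (p + 3) / 4)).card <
      ∑ _θ : ZMod p, A.card :=
    Finset.sum_lt_sum_of_nonempty ⟨0, mem_univ _⟩ (fun θ _ => hno θ)
  rw [Finset.sum_const, smul_eq_mul, Finset.card_univ, ZMod.card, ← Finset.mul_sum] at h1
  have h2 : ∑ θ : ZMod p, (A.filter (fun x => (ξ x + θ).val < (p + 3) / 4)).card =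
      ∑ x ∈ A, (univ.filter (fun θ : ZMod p => (ξ x + θ).val < (p + 3) / 4)).card := by
    simp only [Finset.card_filter]
    exact Finset.sum_comm
  have h3 : ∀ x ∈ A, (p + 3) / 4 ≤
      (univ.filter (fun θ : ZMod p => (ξ x + θ).val < (p + 3) / 4)).card := by
    intro x _
    calc (p + 3) / 4 = (Finset.range ((p + 3) / 4)).card := (Finset.card_range _).symm
      _ ≤ _ := by
        apply Finset.card_le_card_of_injOn (fun i : ℕ => (i : ZMod p) - ξ x)
        · intro i hi
          rw [Finset.mem_coe, Finset.mem_range] at hi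
          rw [Finset.mem_coe, Finset.mem_filter]
          refine ⟨mem_univ _, ?_⟩
          rw [add_sub_cancel, ZMod.val_natCast_of_lt (by omega)]
          exact hi
        · intro i hi j hj hij
          rw [Finset.mem_coe, Finset.mem_range] at hi hj
          have h4 : (i : ZMod p) = j := sub_left_injective hij
          have h5 := congrArg ZMod.val h4
          rwa [ZMod.val_natCast_of_lt (by omega), ZMod.val_natCast_of_lt (by omega)] at h5
  have h4 : A.card * ((p + 3) / 4) ≤
      ∑ x ∈ A, (univ.filter (fun θ : ZMod p => (ξ x + θ).val < (p + 3) / 4)).card := by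
    rw [← smul_eq_mul, ← Finset.sum_const]
    exact Finset.sum_le_sum h3
  rw [h2] at h1
  have h5 : p ≤ 4 * ((p + 3) / 4) := by omega
  nlinarith

/-- finite elementary abelian groups -/
theorem good_elem_finite {p : ℕ} [hp : Fact p.Prime] {V : Type} [AddCommGroup V]
    [Module (ZMod p) V] [Finite V] : Good V 4 4 2 := by
  classical
  intro G₂ _ A hA hne
  have hp1 : 1 < p := hp.out.one_lt
  set D : Set V := Fb 2 A with hD
  have hDf : D.Finite := Fb_finite hA
  set n := D.ncard with hn
  obtain ⟨x0, hx0⟩ := hne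
  have hD0 : (0 : V) ∈ D := by
    have := Dk_two hx0 hx0 hx0 hx0
    rw [show x0 + x0 - x0 - x0 = ((0 : V), (0 : G₂)) by rw [add_sub_cancel_right, sub_self]; rfl]
      at this
    exact this
  have hn1 : 1 ≤ n := (Set.ncard_pos hDf).2 ⟨0, hD0⟩
  set m := Nat.log p (2 * n) with hm
  have hpm : p ^ m ≤ 2 * n := Nat.pow_log_le_self p (by omega)
  have hpm1 : 2 * n < p ^ m * p := by
    rw [← pow_succ]
    exact Nat.lt_pow_succ_log_self hp1 _
  have hpmpos : 0 < p ^ m := pow_pos (by omega) _
  set N := 2 * n / p ^ m + 1 with hN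
  have hNp : N ≤ p := by
    have : 2 * n / p ^ m < p := Nat.div_lt_of_lt_mul hpm1
    omega
  have hNlow : 2 * n < N * p ^ m := by
    rw [hN, mul_comm _ (p ^ m)]
    exact Nat.lt_mul_div_succ _ hpmpos
  have hNup : p ^ m * N ≤ 4 * n := by
    have := Nat.mul_div_le (2 * n) (p ^ m)
    rw [hN, mul_add, mul_one]
    omega
  have hNpos : 0 < N := Nat.succ_pos _
  have : NeZero N := ⟨hNpos.ne'⟩
  set S : Finset ((Fin m → ZMod p) × ZMod p) :=
    univ.filter (fun w => w.1 = 0 ∧ (N : ℤ) ∣ w.2.valMinAbs) with hS
  have hScard : S.card ≤ (univ.filter (fun j : ZMod p => (N : ℤ) ∣ j.valMinAbs)).card := by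
    apply Finset.card_le_card_of_injOn Prod.snd
    · intro w hw
      rw [hS, Finset.mem_coe, Finset.mem_filter] at hw
      simpa using hw.2.2
    · intro w hw w' hw' hww
      rw [hS, Finset.mem_coe, Finset.mem_filter] at hw hw'
      exact Prod.ext (hw.2.1.trans hw'.2.1.symm) hww
  have hcm := card_mult hNpos hNp
  have hSN : S.card * N < 2 * p := lt_of_le_of_lt (Nat.mul_le_mul_right _ hScard) hcm
  set D' : Finset V := hDf.toFinset.erase 0 with hD'
  have hD'card : D'.card ≤ n := by
    rw [hD', hn, Set.ncard_eq_toFinset_card D hDf]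
    exact Finset.card_erase_le
  have hlt : D'.card * S.card < Fintype.card ((Fin m → ZMod p) × ZMod p) := by
    rw [Fintype.card_prod, Fintype.card_fun, Fintype.card_fin, ZMod.card]
    have h1 : D'.card * S.card ≤ n * S.card := Nat.mul_le_mul_right _ hD'card
    have h2 : n * S.card * N < p ^ m * p * N := by
      calc n * S.card * N = n * (S.card * N) := by ring
        _ < n * (2 * p) := Nat.mul_lt_mul_of_pos_left hSN hn1
        _ = 2 * n * p := by ring
        _ ≤ N * p ^ m * p := Nat.mul_le_mul_right _ hNlow.le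
        _ = p ^ m * p * N := by ring
    exact lt_of_le_of_lt h1 (Nat.lt_of_mul_lt_mul_right h2)
  obtain ⟨f, hf⟩ := exists_avoid (p := p) D' (by simp [hD']) S hlt
  obtain ⟨θ, hθ⟩ := exists_shift hA.toFinset (fun x : V × G₂ => (f x.1).2)
  set L := (p + 3) / 4 with hL
  set A' : Set (V × G₂) := {x ∈ A | ((f x.1).2 + θ).val < L} with hA'
  refine ⟨A', fun x hx => hx.1, ?_, (Fin m → ZMod p) × ZMod N, inferInstance, inferInstance,
    fun v => ((f v).1, (((f v).2 + θ).val : ZMod N)), ?_, ?_⟩
  · have h1 : A.ncard = hA.toFinset.card := Set.ncard_eq_toFinset_card A hA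
    have h2 : A'.ncard = (hA.toFinset.filter (fun x => ((f x.1).2 + θ).val < L)).card := by
      rw [← Set.ncard_coe_finset]
      congr 1
      ext x
      simp [hA']
    rw [h1, h2]
    exact hθ
  · intro x hx y hy z hz t ht h2
    have hxL := hx.2
    have hyL := hy.2
    have hzL := hz.2
    have htL := ht.2
    set a := ((f x.1).2 + θ).val with ha
    set b := ((f y.1).2 + θ).val with hb
    set c := ((f z.1).2 + θ).val with hc
    set d := ((f t.1).2 + θ).val with hd
    have hcast : (((a : ℤ) + b - c - d : ℤ) : ZMod p) =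
        (f x.1).2 + (f y.1).2 - (f z.1).2 - (f t.1).2 := by
      push_cast
      rw [ha, hb, hc, hd, ZMod.natCast_zmod_val, ZMod.natCast_zmod_val, ZMod.natCast_zmod_val,
        ZMod.natCast_zmod_val]
      ring
    have h4L : 4 * (L - 1) ≤ p - 1 := by omega
    set w := x.1 + y.1 - z.1 - t.1 with hw
    have hfw : f w = f x.1 + f y.1 - f z.1 - f t.1 := by
      rw [hw, map_sub, map_sub, map_add]
    have hfw2 : (f w).2 = (f x.1).2 + (f y.1).2 - (f z.1).2 - (f t.1).2 := by
      rw [hfw]; rfl
    have hfw1 : (f w).1 = (f x.1).1 + (f y.1).1 - (f z.1).1 - (f t.1).1 := by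
      rw [hfw]; rfl
    have hw0 : w = 0 ↔ x.1 + y.1 = z.1 + t.1 := by
      rw [hw, sub_sub, sub_eq_zero]
    rw [← hw0]
    constructor
    · intro hww
      rw [hww, map_zero] at hfw1 hfw2
      have h5 : (((a : ℤ) + b - c - d : ℤ) : ZMod p) = 0 := by rw [hcast, ← hfw2]; rfl
      rw [ZMod.intCast_zmod_eq_zero_iff_dvd] at h5
      have h6 : (a : ℤ) + b - c - d = 0 := by
        apply Int.eq_zero_of_abs_lt_dvd h5
        rw [abs_lt]
        constructor <;> omega
      have h7 : a + b = c + d := by omega
      ext1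
      · have h8 : (f x.1).1 + (f y.1).1 - (f z.1).1 - (f t.1).1 = 0 := hfw1.symm
        rw [sub_sub, sub_eq_zero] at h8
        exact h8
      · change ((a : ZMod N)) + b = c + d
        exact_mod_cast congrArg (Nat.cast : ℕ → ZMod N) h7
    · intro hψ
      have hψ1 : (f x.1).1 + (f y.1).1 = (f z.1).1 + (f t.1).1 := congrArg Prod.fst hψ
      have hψ2 : ((a : ZMod N)) + b = c + d := congrArg Prod.snd hψ
      by_contra hwne
      have hwD : w ∈ D' := by
        rw [hD', Finset.mem_erase, Set.Finite.mem_toFinset]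
        refine ⟨hwne, ?_⟩
        have := Dk_two hx.1 hy.1 hz.1 ht.1
        have h3 : x + y - z - t = (w, (0 : G₂)) := by
          ext
          · rfl
          · simp [h2]
        rw [h3] at this
        exact this
      apply hf w hwD
      rw [hS, Finset.mem_filter]
      refine ⟨mem_univ _, ?_, ?_⟩
      · rw [hfw1, sub_sub, sub_eq_zero]
        exact hψ1
      · have h5 : ((a : ℤ) + b - c - d) = (f w).2.valMinAbs := by
          symm
          rw [ZMod.valMinAbs_spec]
          refine ⟨?_, ?_⟩
          · rw [hfw2, hcast]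
          · rw [Set.mem_Ioc]
            constructor <;> omega
        rw [← h5]
        rw [← ZMod.intCast_zmod_eq_zero_iff_dvd]
        push_cast
        rw [sub_sub, sub_eq_zero]
        exact hψ2
  · rw [Nat.card_prod, Nat.card_fun, Nat.card_fin, Nat.card_zmod, Nat.card_zmod]
    exact hNup

/-- elementary abelian groups -/
theorem good_elem {p : ℕ} (hp : p.Prime) {V : Type} [AddCommGroup V] (hV : ∀ v : V, p • v = 0) :
    Good V 4 4 2 := by
  have : Fact p.Prime := ⟨hp⟩
  apply good_local
  intro E D hE _
  refine ⟨AddSubgroup.closure E, inferInstance, ?_, AddMonoidHom.id _, ?_⟩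
  · have h1 : ∀ v : AddSubgroup.closure E, p • v = 0 := by
      intro v
      apply Subtype.ext
      exact hV v
    let _ : Module (ZMod p) (AddSubgroup.closure E) := AddCommGroup.zmodModule h1
    have : Finite (AddSubgroup.closure E) := by
      have h2 : IsAddTorsion (AddSubgroup.closure E) := fun v =>
        isOfFinAddOrder_iff_nsmul_eq_zero.2 ⟨p, hp.pos, h1 v⟩
      have : AddGroup.FG (AddSubgroup.closure E) := by
        rw [AddGroup.fg_iff_addSubgroup_fg]
        exact ⟨hE.toFinset, by simp⟩
      exact AddCommGroup.finite_of_fg_isAddTorsion _ h2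
    exact good_elem_finite (p := p)
  · intro w _ hw
    exact hw

end Pool.Agent.H72.CE
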