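import Pool.Agent.H72.CE.Elem

/-!
# Torsion-free groups, cyclic groups, products; the final theorem
-/

set_option autoImplicit false

namespace Pool.Agent.H72.CE

open Finset

theorem Good.mono_c {G₁ : Type} [AddCommGroup G₁] {c C k c' : ℕ} (h : Good G₁ c C k)
    (hc : c ≤ c') : Good G₁ c' C k := by
  intro G₂ _ A hA hne
  obtain ⟨A', h1, h2, h3⟩ := h G₂ A hA hne
  exact ⟨A', h1, h2.trans (Nat.mul_le_mul_right _ hc), h3⟩

/-- finite products of elementary abelian groups -/
theorem good_pi_elem (r : ℕ) : ∀ (p : Fin r → ℕ) (V : Fin r → Type) [∀ i, AddCommGroup (V i)],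
    (∀ i, (p i).Prime) → (∀ i (v : V i), p i • v = 0) →
    Good (∀ i, V i) (4 ^ r) (4 ^ r) (2 * r) := by
  induction r with
  | zero =>
    intro p V _ _ _
    exact good_trivial
  | succ r ih =>
    intro p V _ hp hV
    have h1 : Good ((∀ i : Fin r, V i.succ) × V 0) (4 ^ r * 4) (4 ^ r * 4) (2 * r + 2) :=
      good_prod (ih (fun i => p i.succ) (fun i => V i.succ) (fun i => hp _) (fun i => hV _))
        (good_elem (hp 0) (hV 0))
    have h2 := good_of_injective (G₁ := ∀ i, V i)
      (AddMonoidHom.prod (AddMonoidHom.mk' (fun (f : ∀ i, V i) (i : Fin r) => f i.succ)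
        (fun _ _ => rfl)) (Pi.evalAddMonoidHom V 0)) ?_ h1
    · rw [pow_succ, mul_add, mul_one]
      exact h2
    · intro f g hfg
      have e1 := congrArg Prod.fst hfg
      have e2 := congrArg Prod.snd hfg
      funext i
      refine Fin.cases ?_ (fun j => ?_) i
      · exact e2
      · exact congrFun e1 j

/-- torsion-free groups -/
theorem good_torsionFree {F : Type} [AddCommGroup F]
    (hF : ∀ (n : ℕ) (x : F), n ≠ 0 → n • x = 0 → x = 0) : Good F 4 4 2 := by
  classical
  apply good_local
  intro E D hE hD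
  have hfin : Module.Finite ℤ (AddSubgroup.closure E) := by
    have : AddGroup.FG (AddSubgroup.closure E) := by
      rw [AddGroup.fg_iff_addSubgroup_fg]
      exact ⟨hE.toFinset, by simp⟩
    exact Module.Finite.iff_addGroup_fg.2 this
  have htf : IsAddTorsionFree (AddSubgroup.closure E) := by
    constructor
    intro n hn x y hxy
    have h1 : n • (x - y) = 0 := by
      rw [smul_sub, sub_eq_zero]; exact hxy
    have h2 : n • ((x - y : AddSubgroup.closure E) : F) = 0 := by
      rw [← AddSubgroup.coe_nsmul, h1]; rfl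
    have h3 := hF n _ hn h2
    exact sub_eq_zero.1 (Subtype.ext h3)
  have htf2 : Module.IsTorsionFree ℤ (AddSubgroup.closure E) := inferInstance
  have hfree : Module.Free ℤ (AddSubgroup.closure E) := Module.free_of_finite_type_torsion_free'
  let ι := Module.Free.ChooseBasisIndex ℤ (AddSubgroup.closure E)
  let β : Module.Basis ι ℤ (AddSubgroup.closure E) := Module.Free.chooseBasis ℤ _
  have hD0 : {w : AddSubgroup.closure E | (w : F) ∈ D}.Finite :=
    hD.preimage (Subtype.val_injective.injOn)
  -- a bound for the coordinates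
  obtain ⟨M, hM⟩ : ∃ M : ℕ, ∀ w : AddSubgroup.closure E, (w : F) ∈ D → ∀ i,
      (β.repr w i).natAbs ≤ M := by
    refine ⟨∑ w ∈ hD0.toFinset, ∑ i : ι, (β.repr w i).natAbs, ?_⟩
    intro w hw i
    calc (β.repr w i).natAbs ≤ ∑ i : ι, (β.repr w i).natAbs :=
          Finset.single_le_sum (f := fun i => (β.repr w i).natAbs) (fun _ _ => Nat.zero_le _)
            (Finset.mem_univ i)
      _ ≤ _ := Finset.single_le_sum (f := fun w => ∑ i : ι, (β.repr w i).natAbs)
            (fun _ _ => Nat.zero_le _) (by simpa using hw)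
  obtain ⟨q, hqM, hq⟩ := Nat.exists_infinite_primes (M + 1)
  refine ⟨ι → ZMod q, inferInstance, ?_, ?_⟩
  · exact good_elem hq (fun v => by
      funext i
      simp)
  · refine ⟨AddMonoidHom.mk' (fun w i => ((β.repr w i : ℤ) : ZMod q)) ?_, ?_⟩
    · intro a b
      funext i
      simp
    · intro w hw h0
      have h1 : ∀ i, β.repr w i = 0 := by
        intro i
        have h2 : ((β.repr w i : ℤ) : ZMod q) = 0 := congrFun h0 i
        rw [ZMod.intCast_zmod_eq_zero_iff_dvd] at h2
        by_contra hne
        have h3 := Int.natAbs_dvd_natAbs.2 h2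
        rw [Int.natAbs_natCast] at h3
        have h4 := Nat.le_of_dvd (Int.natAbs_pos.2 hne) h3
        have h5 := hM w hw i
        omega
      apply β.repr.injective
      rw [map_zero]
      ext i
      exact h1 i

/-- cyclic groups -/
theorem good_cyclic (M : ℕ) : Good (ZMod M) 16 4 2 := by
  classical
  have hint : Good ℤ 4 4 2 := good_torsionFree (fun n x hn h => by
    rw [nsmul_eq_mul, mul_eq_zero] at h
    rcases h with h | h
    · exact absurd (by exact_mod_cast h) hn
    · exact h)
  rcases Nat.eq_zero_or_pos M with rfl | hM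
  · exact hint.mono_c (by omega)
  have : NeZero M := ⟨hM.ne'⟩
  intro G₂ _ A hA hne
  obtain ⟨θ, hθ⟩ := exists_shift hA.toFinset (fun x : ZMod M × G₂ => x.1)
  set L := (M + 3) / 4 with hL
  have hL4 : 4 * (L - 1) ≤ M - 1 := by omega
  set A0 : Set (ZMod M × G₂) := {x ∈ A | (x.1 + θ).val < L} with hA0
  have hA0f : A0.Finite := hA.subset (fun x hx => hx.1)
  have hA0c : A.ncard ≤ 4 * A0.ncard := by
    have h1 : A.ncard = hA.toFinset.card := Set.ncard_eq_toFinset_card A hA
    have h2 : A0.ncard = (hA.toFinset.filter (fun x => (x.1 + θ).val < L)).card := by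
      rw [← Set.ncard_coe_finset]
      congr 1
      ext x
      simp [hA0]
    rw [h1, h2]
    exact hθ
  have hA0ne : A0.Nonempty := by
    by_contra hno
    rw [Set.not_nonempty_iff_eq_empty] at hno
    rw [hno, Set.ncard_empty, mul_zero] at hA0c
    have := (Set.ncard_pos hA).2 hne
    omega
  set lam : ZMod M → ℤ := fun g => ((g + θ).val : ℤ) with hlam
  have hcast : ∀ g : ZMod M, ((lam g : ℤ) : ZMod M) = g + θ := by
    intro g
    rw [hlam]
    push_cast
    exact ZMod.natCast_zmod_val _
  have hlaminj : Function.Injective lam := by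
    intro g g' h
    have := congrArg (fun z : ℤ => (z : ZMod M)) h
    simp only [hcast] at this
    exact add_right_cancel this
  set τ : ZMod M × G₂ → ℤ × G₂ := fun x => (lam x.1, x.2) with hτ
  have hτinj : Function.Injective τ := by
    intro x y hxy
    simp only [hτ, Prod.mk.injEq] at hxy
    exact Prod.ext (hlaminj hxy.1) hxy.2
  obtain ⟨B', hB', hcard, H, _, _, ψ, hFI, hH⟩ := hint G₂ (τ '' A0) (hA0f.image _)
    (hA0ne.image _)
  have hbd : ∀ x ∈ A0, 0 ≤ lam x.1 ∧ lam x.1 ≤ (L : ℤ) - 1 := by
    intro x hx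
    have h1 : (x.1 + θ).val < L := hx.2
    rw [hlam]
    constructor
    · exact Int.natCast_nonneg _
    · simp only; omega
  refine ⟨{x ∈ A0 | τ x ∈ B'}, fun x hx => hx.1.1, ?_, H, inferInstance, inferInstance,
    fun g => ψ (lam g), ?_, ?_⟩
  · have himg : τ '' {x ∈ A0 | τ x ∈ B'} = B' := by
      ext y
      constructor
      · rintro ⟨x, hx, rfl⟩; exact hx.2
      · intro hy
        obtain ⟨x, hx, rfl⟩ := hB' hy
        exact ⟨x, ⟨hx, hy⟩, rfl⟩
    have e1 : (τ '' A0).ncard = A0.ncard := Set.ncard_image_of_injective _ hτinj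
    have e2 : B'.ncard = {x ∈ A0 | τ x ∈ B'}.ncard := by
      rw [← himg, Set.ncard_image_of_injective _ hτinj, himg]
    rw [← e2]
    rw [e1] at hcard
    omega
  · intro x hx y hy z hz t ht h2
    have k := hFI _ hx.2 _ hy.2 _ hz.2 _ ht.2 h2
    have bx := hbd x hx.1
    have by' := hbd y hy.1
    have bz := hbd z hz.1
    have bt := hbd t ht.1
    rw [← show (lam x.1 + lam y.1 = lam z.1 + lam t.1 ↔ ψ (lam x.1) + ψ (lam y.1) =
      ψ (lam z.1) + ψ (lam t.1)) from k]
    have hc : ((lam x.1 + lam y.1 - (lam z.1 + lam t.1) : ℤ) : ZMod M) =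
        x.1 + y.1 - (z.1 + t.1) := by
      push_cast
      rw [hcast, hcast, hcast, hcast]
      ring
    constructor
    · intro h
      rw [h, sub_self, ZMod.intCast_zmod_eq_zero_iff_dvd] at hc
      have := Int.eq_zero_of_abs_lt_dvd hc (by rw [abs_lt]; constructor <;> omega)
      omega
    · intro h
      rw [h, sub_self, Int.cast_zero] at hc
      exact sub_eq_zero.1 hc.symm
  · refine hH.trans (Nat.mul_le_mul_left _ ?_)
    refine Set.ncard_le_ncard_of_injOn (fun z : ℤ => (z : ZMod M)) ?_ ?_ (Fb_finite hA)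
    · rintro n ⟨a, b, ha, hb, hn⟩
      choose a' ha' ha'' using ha
      choose b' hb' hb'' using hb
      refine ⟨a', b', fun i => (ha' i).1, fun i => (hb' i).1, ?_⟩
      have h1 := congrArg Prod.fst hn
      have h2 := congrArg Prod.snd hn
      simp only [Fin.sum_univ_two, Prod.fst_sub, Prod.snd_sub, Prod.fst_add, Prod.snd_add] at h1 h2
      rw [← ha'' 0, ← ha'' 1, ← hb'' 0, ← hb'' 1] at h1 h2
      simp only [hτ] at h1 h2
      ext
      · simp only [Fin.sum_univ_two, Prod.fst_sub, Prod.fst_add]
        rw [h1]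
        push_cast
        rw [hcast, hcast, hcast, hcast]
        ring
      · simp only [Fin.sum_univ_two, Prod.snd_sub, Prod.snd_add]
        exact h2
    · have hbound : ∀ n ∈ Fb 2 (τ '' A0), -(2 * ((L : ℤ) - 1)) ≤ n ∧ n ≤ 2 * ((L : ℤ) - 1) := by
        rintro n ⟨a, b, ha, hb, hn⟩
        have h1 := congrArg Prod.fst hn
        simp only [Fin.sum_univ_two, Prod.fst_sub, Prod.fst_add] at h1
        have hb0 : ∀ y ∈ τ '' A0, 0 ≤ y.1 ∧ y.1 ≤ (L : ℤ) - 1 := by
          rintro _ ⟨x, hx, rfl⟩
          exact hbd x hx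
        have := hb0 _ (ha 0)
        have := hb0 _ (ha 1)
        have := hb0 _ (hb 0)
        have := hb0 _ (hb 1)
        constructor <;> omega
      intro n hn n' hn' hnn
      have b1 := hbound n hn
      have b2 := hbound n' hn'
      have h1 : ((n - n' : ℤ) : ZMod M) = 0 := by
        push_cast
        rw [sub_eq_zero]
        exact hnn
      rw [ZMod.intCast_zmod_eq_zero_iff_dvd] at h1
      have := Int.eq_zero_of_abs_lt_dvd h1 (by rw [abs_lt]; constructor <;> omega)
      omega

/-- finite products of cyclic groups -/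
theorem good_pi_cyclic (r : ℕ) : ∀ (M : Fin r → ℕ),
    Good (∀ i, ZMod (M i)) (16 ^ r) (4 ^ r) (2 * r) := by
  induction r with
  | zero =>
    intro M
    exact good_trivial
  | succ r ih =>
    intro M
    have h1 : Good ((∀ i : Fin r, ZMod (M i.succ)) × ZMod (M 0)) (16 ^ r * 16) (4 ^ r * 4)
        (2 * r + 2) := good_prod (ih (fun i => M i.succ)) (good_cyclic (M 0))
    have h2 := good_of_injective (G₁ := ∀ i, ZMod (M i))
      (AddMonoidHom.prod (AddMonoidHom.mk' (fun (f : ∀ i, ZMod (M i)) (i : Fin r) => f i.succ)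
        (fun _ _ => rfl)) (Pi.evalAddMonoidHom (fun i => ZMod (M i)) 0)) ?_ h1
    · rw [pow_succ, pow_succ, mul_add, mul_one]
      exact h2
    · intro f g hfg
      have e1 := congrArg Prod.fst hfg
      have e2 := congrArg Prod.snd hfg
      funext i
      refine Fin.cases ?_ (fun j => ?_) i
      · exact e2
      · exact congrFun e1 j

end Pool.Agent.H72.CE
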