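import Pool.Agent.H72.CE.Strong

/-!
# Reduction to finitely generated groups
-/

set_option autoImplicit false

namespace Pool.Agent.H72.CE

open Finset

theorem nat_card_pow_pos {p e : ℕ} (hp : p.Prime) : NeZero (p ^ e) := ⟨pow_ne_zero _ hp.ne_zero⟩

/-- products of a free group and finitely many cyclic groups of prime power order -/
theorem model_pi {n : ℕ} {κ : Type} [Fintype κ] [DecidableEq κ] (p : κ → ℕ)
    (hp : ∀ i, (p i).Prime) (e : κ → ℕ) (t : ℕ)
    (ht : ∀ P : ℕ, Fintype.card {i : κ // p i = P ∧ 2 ≤ e i} ≤ t)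
    (A : Set ((Fin n →₀ ℤ) × ∀ i, ZMod (p i ^ e i))) (hA : A.Finite) (hne : A.Nonempty)
    (K : ℝ) (hK1 : 1 ≤ K) (hK : Dbl K A) :
    ModelR A (4 ^ t * 4096 * K ^ 8) (4 ^ t * 32768 * K ^ 12) := by
  classical
  -- the enumeration of the factors of order at least `p²`
  have hemb : ∀ P : ℕ, Nonempty ({i : κ // p i = P ∧ 2 ≤ e i} ↪ Fin t) := by
    intro P
    apply Function.Embedding.nonempty_of_card_le
    rw [Fintype.card_fin]
    exact ht P
  let g : ∀ P : ℕ, {i : κ // p i = P ∧ 2 ≤ e i} ↪ Fin t := fun P => (hemb P).some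
  let S : Finset ℕ := univ.image p
  let J : Fin t → Type := fun j => {i : κ // ∃ h : 2 ≤ e i, g (p i) ⟨i, rfl, h⟩ = j}
  let M : Fin t → ℕ := fun j => ∏ i : J j, p i.1 ^ e i.1
  have hJinj : ∀ j (i i' : J j), p i.1 = p i'.1 → i = i' := by
    rintro j ⟨i, h, hi⟩ ⟨i', h', hi'⟩ hpp
    simp only at hpp
    have key : ∀ P (h1 : p i = P) (h2 : p i' = P),
        g P ⟨i, h1, h⟩ = g P ⟨i', h2, h'⟩ → i = i' := by
      intro P h1 h2 h3
      exact congrArg Subtype.val ((g P).injective h3)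
    have e1 : g (p i) ⟨i, rfl, h⟩ = g (p i) ⟨i', hpp.symm, h'⟩ := by
      rw [hi]
      have e2 : ∀ P (h2 : p i' = P), g P ⟨i', h2, h'⟩ = j := by
        rintro _ rfl
        exact hi'
      exact (e2 _ hpp.symm).symm
    exact Subtype.ext (key _ rfl hpp.symm e1)
  have hcop : ∀ j, Pairwise (Function.onFun Nat.Coprime (fun i : J j => p i.1 ^ e i.1)) := by
    intro j i i' hii
    apply Nat.Coprime.pow
    rw [Nat.coprime_primes (hp _) (hp _)]
    exact fun h => hii (hJinj j i i' h)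
  let crt : ∀ j, ZMod (M j) ≃+* (∀ i : J j, ZMod (p i.1 ^ e i.1)) := fun j =>
    ZMod.prodEquivPi (fun i : J j => p i.1 ^ e i.1) (hcop j)
  -- the elementary part
  let V : S → Type := fun P => ∀ i : {i : κ // p i = P ∧ e i ≤ 1}, ZMod (p i.1 ^ e i.1)
  have hVkill : ∀ (P : S) (v : V P), (P : ℕ) • v = 0 := by
    intro P v
    funext i
    obtain ⟨i, hi, he⟩ := i
    change (P : ℕ) • v ⟨i, hi, he⟩ = 0
    rw [nsmul_eq_mul]
    have h1 : ((P : ℕ) : ZMod (p i ^ e i)) = 0 := by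
      rw [ZMod.natCast_eq_zero_iff, ← hi]
      calc p i ^ e i ∣ p i ^ 1 := pow_dvd_pow _ he
        _ = p i := pow_one _
    rw [h1, zero_mul]
  let _ : ∀ P : S, Module (ZMod (P : ℕ)) (V P) := fun P => AddCommGroup.zmodModule (hVkill P)
  have hVfin : ∀ P : S, Finite (V P) := by
    intro P
    have : ∀ i : {i : κ // p i = P ∧ e i ≤ 1}, NeZero (p i.1 ^ e i.1) := fun i =>
      nat_card_pow_pos (hp _)
    exact Pi.finite
  let Φ : ((Fin n →₀ ℤ) × ∀ i, ZMod (p i ^ e i)) →+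
      ((Fin n →₀ ℤ) × (∀ j, ZMod (M j))) × (∀ P : S, V P) :=
    AddMonoidHom.mk' (fun x => ((x.1, fun j => (crt j).symm (fun i => x.2 i.1)),
      fun P i => x.2 i.1)) (by
      intro x y
      refine Prod.ext (Prod.ext rfl ?_) rfl
      funext j
      change (crt j).symm (fun i => x.2 i.1 + y.2 i.1) = (crt j).symm (fun i => x.2 i.1) +
        (crt j).symm (fun i => y.2 i.1)
      rw [← map_add]
      rfl)
  have hΦinj : ∀ x, Φ x = 0 → x = 0 := by
    intro x hx
    have h1 : x.1 = 0 := congrArg (fun w : ((Fin n →₀ ℤ) × (∀ j, ZMod (M j))) × (∀ P : S, V P) =>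
      w.1.1) hx
    refine Prod.ext h1 ?_
    funext i
    by_cases hi : 2 ≤ e i
    · have h2 := congrArg (fun w : ((Fin n →₀ ℤ) × (∀ j, ZMod (M j))) × (∀ P : S, V P) =>
        w.1.2 (g (p i) ⟨i, rfl, hi⟩)) hx
      have h3 : (crt (g (p i) ⟨i, rfl, hi⟩)).symm (fun i => x.2 i.1) = 0 := h2
      have h4 := (map_eq_zero_iff _ (crt (g (p i) ⟨i, rfl, hi⟩)).symm.injective).1 h3
      exact congrFun h4 ⟨i, hi, rfl⟩
    · have h2 := congrArg (fun w : ((Fin n →₀ ℤ) × (∀ j, ZMod (M j))) × (∀ P : S, V P) =>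
        w.2 ⟨p i, Finset.mem_image_of_mem _ (mem_univ i)⟩ ⟨i, rfl, by omega⟩) hx
      exact h2
  have hF : ∀ (m : ℕ) (x : Fin n →₀ ℤ), m ≠ 0 → m • x = 0 → x = 0 := by
    intro m x hm hx
    rcases smul_eq_zero.1 hx with h | h
    · exact absurd h hm
    · exact h
  apply ModelR.of_hom Φ (fun d _ h => hΦinj d h)
  exact core hF M (fun P : S => (P : ℕ)) (fun P => by
      obtain ⟨i, -, hi⟩ := Finset.mem_image.1 P.2
      rw [← hi]; exact hp i) Subtype.val_injective V (Φ '' A) (hA.image _) (hne.image _) K hK1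
    (hK.image hA Φ (injOn_of_hom Φ (fun d _ h => hΦinj d h)))

/-- The multiples `p y` with `p² y = 0`. -/
def Depth (G : Type) [AddCommGroup G] (t : ℕ) : Prop :=
  ∀ p : ℕ, p.Prime → {x : G | ∃ y : G, p • y = x ∧ p • x = 0}.Finite ∧
    {x : G | ∃ y : G, p • y = x ∧ p • x = 0}.ncard ≤ p ^ t

/-- the number of factors of order at least `p²` -/
theorem card_le_of_depth {G : Type} [AddCommGroup G] {t : ℕ} (hG : Depth G t) {n : ℕ} {κ : Type}
    [Fintype κ] [DecidableEq κ] (p : κ → ℕ) (hp : ∀ i, (p i).Prime) (e : κ → ℕ)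
    (j : ((Fin n →₀ ℤ) × ∀ i, ZMod (p i ^ e i)) →+ G) (hj : Function.Injective j) (P : ℕ) :
    Fintype.card {i : κ // p i = P ∧ 2 ≤ e i} ≤ t := by
  classical
  by_cases hP : P.Prime
  swap
  · have : IsEmpty {i : κ // p i = P ∧ 2 ≤ e i} := ⟨fun i => hP (i.2.1 ▸ hp i.1)⟩
    rw [Fintype.card_eq_zero]
    exact Nat.zero_le _
  obtain ⟨h1, h2⟩ := hG P hP
  set I := {i : κ // p i = P ∧ 2 ≤ e i} with hI
  let f : (I → Fin P) → G := fun c => j (0, fun i => if h : p i = P ∧ 2 ≤ e i then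
    ((((c ⟨i, h⟩ : Fin P) : ℕ) * p i ^ (e i - 1) : ℕ) : ZMod (p i ^ e i)) else 0)
  have hf1 : ∀ c, f c ∈ {x : G | ∃ y : G, P • y = x ∧ P • x = 0} := by
    intro c
    refine ⟨j (0, fun i => if h : p i = P ∧ 2 ≤ e i then
      ((((c ⟨i, h⟩ : Fin P) : ℕ) * p i ^ (e i - 2) : ℕ) : ZMod (p i ^ e i)) else 0), ?_, ?_⟩
    · rw [← map_nsmul]
      congr 1
      refine Prod.ext (smul_zero _) ?_
      funext i
      change P • (if h : p i = P ∧ 2 ≤ e i then
        ((((c ⟨i, h⟩ : Fin P) : ℕ) * p i ^ (e i - 2) : ℕ) : ZMod (p i ^ e i)) else 0) =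
        (if h : p i = P ∧ 2 ≤ e i then
        ((((c ⟨i, h⟩ : Fin P) : ℕ) * p i ^ (e i - 1) : ℕ) : ZMod (p i ^ e i)) else 0)
      split_ifs with h
      · rw [nsmul_eq_mul]
        have h5 : e i - 1 = (e i - 2) + 1 := by
          have := h.2
          omega
        have h6 : (P : ZMod (p i ^ e i)) = ((p i : ℕ) : ZMod (p i ^ e i)) := by rw [h.1]
        push_cast
        rw [h5, pow_succ, h6]
        ring
      · rw [smul_zero]
    · rw [← map_nsmul]
      have : P • ((0 : Fin n →₀ ℤ), (fun i => if h : p i = P ∧ 2 ≤ e i then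
          ((((c ⟨i, h⟩ : Fin P) : ℕ) * p i ^ (e i - 1) : ℕ) : ZMod (p i ^ e i)) else 0 :
            ∀ i, ZMod (p i ^ e i))) = 0 := by
        refine Prod.ext (smul_zero _) ?_
        funext i
        change P • (if h : p i = P ∧ 2 ≤ e i then
          ((((c ⟨i, h⟩ : Fin P) : ℕ) * p i ^ (e i - 1) : ℕ) : ZMod (p i ^ e i)) else 0) = 0
        split_ifs with h
        · obtain ⟨h3, h4⟩ := h
          rw [nsmul_eq_mul, ← Nat.cast_mul]
          change ((P * (((c ⟨i, _⟩ : Fin P) : ℕ) * p i ^ (e i - 1)) : ℕ) : ZMod (p i ^ e i)) = 0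
          rw [ZMod.natCast_eq_zero_iff]
          have h5 : p i ^ e i = p i ^ (e i - 1) * P := by
            rw [← h3, ← pow_succ]
            congr 1
            omega
          rw [h5]
          refine ⟨((c ⟨i, ⟨h3, h4⟩⟩ : Fin P) : ℕ), ?_⟩
          ring
        · rw [smul_zero]
      rw [this, map_zero]
  have hf2 : Function.Injective f := by
    intro c c' hcc
    have h3 := congrArg (fun w : (Fin n →₀ ℤ) × ∀ i, ZMod (p i ^ e i) => w.2) (hj hcc)
    funext ⟨i, h⟩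
    have h4 := congrFun h3 i
    simp only [dif_pos h] at h4
    rw [ZMod.natCast_eq_natCast_iff] at h4
    have hpos : 0 < p i ^ (e i - 1) := pow_pos (hp i).pos _
    have h5 : p i ^ e i = P * p i ^ (e i - 1) := by
      obtain ⟨h6, h7⟩ := h
      rw [← h6, ← pow_succ']
      congr 1
      omega
    have h6 : ∀ c : I → Fin P, ((c ⟨i, h⟩ : Fin P) : ℕ) * p i ^ (e i - 1) < p i ^ e i := by
      intro c
      rw [h5]
      exact Nat.mul_lt_mul_of_pos_right (c ⟨i, h⟩).2 hpos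
    have h7 := Nat.ModEq.eq_of_lt_of_lt h4 (h6 c) (h6 c')
    exact Fin.ext (Nat.eq_of_mul_eq_mul_right hpos h7)
  have h3 : P ^ Fintype.card I ≤ P ^ t := by
    calc P ^ Fintype.card I = Fintype.card (I → Fin P) := by
          rw [Fintype.card_fun, Fintype.card_fin]
      _ = (Set.range f).ncard := by
          rw [← Set.image_univ, Set.ncard_image_of_injective _ hf2, Set.ncard_univ,
            Nat.card_eq_fintype_card]
      _ ≤ {x : G | ∃ y : G, P • y = x ∧ P • x = 0}.ncard :=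
          Set.ncard_le_ncard (by rintro _ ⟨c, rfl⟩; exact hf1 c) h1
      _ ≤ P ^ t := h2
  exact (Nat.pow_le_pow_iff_right hP.one_lt).1 h3

/-- the reduction -/
theorem model_of_depth {G : Type} [AddCommGroup G] {t : ℕ} (hG : Depth G t) (A : Set G)
    (hA : A.Finite) (hne : A.Nonempty) (K : ℝ) (hK1 : 1 ≤ K) (hK : Dbl K A) :
    ModelR A (4 ^ t * 4096 * K ^ 8) (4 ^ t * 32768 * K ^ 12) := by
  classical
  set G₀ := AddSubgroup.closure A with hG₀
  have hfg : AddGroup.FG G₀ := by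
    rw [AddGroup.fg_iff_addSubgroup_fg]
    exact ⟨hA.toFinset, by simp [hG₀]⟩
  obtain ⟨n, κ, _, p, hp, e, ⟨ε₀⟩⟩ := AddCommGroup.equiv_free_prod_directSum_zmod G₀
  let ε : G₀ ≃+ (Fin n →₀ ℤ) × ∀ i, ZMod (p i ^ e i) :=
    ε₀.trans ((AddEquiv.refl _).prodCongr (DirectSum.addEquivProd fun i => ZMod (p i ^ e i)))
  let j : ((Fin n →₀ ℤ) × ∀ i, ZMod (p i ^ e i)) →+ G := G₀.subtype.comp ε.symm.toAddMonoidHom
  have hj : Function.Injective j := Subtype.val_injective.comp ε.symm.injective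
  let f : G → (Fin n →₀ ℤ) × ∀ i, ZMod (p i ^ e i) := fun x =>
    if h : x ∈ G₀ then ε ⟨x, h⟩ else 0
  have hmem : ∀ x ∈ A, x ∈ G₀ := fun x hx => AddSubgroup.subset_closure hx
  have hjf : ∀ x ∈ A, j (f x) = x := by
    intro x hx
    have h1 : f x = ε ⟨x, hmem x hx⟩ := dif_pos (hmem x hx)
    rw [h1]
    change ((ε.symm (ε ⟨x, hmem x hx⟩) : G₀) : G) = x
    rw [AddEquiv.symm_apply_apply]
  have himg : j '' (f '' A) = A := by
    rw [Set.image_image]
    ext y
    constructor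
    · rintro ⟨x, hx, rfl⟩
      change j (f x) ∈ A
      rw [hjf x hx]
      exact hx
    · intro hy
      exact ⟨y, hy, hjf y hy⟩
  have hinj : Set.InjOn f A := by
    intro x hx y hy hxy
    rw [← hjf x hx, ← hjf y hy, hxy]
  apply ModelR.transfer f
  · intro x hx y hy z hz w hw
    constructor
    · intro h
      apply hj
      rw [map_add, map_add, hjf x hx, hjf y hy, hjf z hz, hjf w hw, h]
    · intro h
      rw [← hjf x hx, ← hjf y hy, ← hjf z hz, ← hjf w hw, ← map_add, ← map_add, h]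
  · apply model_pi p hp e t (card_le_of_depth hG p hp e j hj) (f '' A) (hA.image _)
      (hne.image _) K hK1
    intro k
    rw [hinj.ncard_image]
    refine le_trans ?_ (hK k)
    have h1 : j '' (Dk k (f '' A)) ⊆ Dk k A := by
      rintro _ ⟨x, ⟨a, b, ha, hb, rfl⟩, rfl⟩
      refine ⟨fun i => j (a i), fun i => j (b i), ?_, ?_, ?_⟩
      · intro i
        rw [← himg]
        exact ⟨_, ha i, rfl⟩
      · intro i
        rw [← himg]
        exact ⟨_, hb i, rfl⟩
      · rw [map_sub, map_sum, map_sum]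
    have h2 : (Dk k (f '' A)).ncard = (j '' (Dk k (f '' A))).ncard :=
      (Set.ncard_image_of_injective _ hj).symm
    rw [h2]
    exact_mod_cast Set.ncard_le_ncard h1 (Dk_finite hA)

end Pool.Agent.H72.CE
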