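import Pool.Agent.H72.CE.Elem

/-!
# Choice of small subspaces which contain few vectors
-/

set_option autoImplicit false

namespace Pool.Agent.H72.CE

open Finset

open Classical in
/-- one hyperplane -/
theorem exists_hyperplane {p : ℕ} [hp : Fact p.Prime] {V : Type} [AddCommGroup V]
    [Module (ZMod p) V] [Finite V] {α : Type} (X : Finset α) (y : α → V) (w : α → ℕ)
    (U : Submodule (ZMod p) V) (hU : U ≠ ⊥) :
    ∃ U' : Submodule (ZMod p) V, U' ≤ U ∧
      Module.finrank (ZMod p) U' + 1 = Module.finrank (ZMod p) U ∧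
      p * ∑ x ∈ X, (if y x ∈ U' ∧ y x ≠ 0 then w x else 0) ≤
        ∑ x ∈ X, (if y x ∈ U ∧ y x ≠ 0 then w x else 0) := by
  have hfin : Finite (Module.Dual (ZMod p) V) :=
    Finite.of_injective (fun f : Module.Dual (ZMod p) V => (f : V → ZMod p)) DFunLike.coe_injective
  have := Fintype.ofFinite (Module.Dual (ZMod p) V)
  -- the functionals which do not vanish on `U`
  set Λ : Finset (Module.Dual (ZMod p) V) := univ.filter (fun l => ∃ u ∈ U, l u ≠ 0) with hΛ
  have hdual : ∀ v : V, v ≠ 0 → ∃ φ : Module.Dual (ZMod p) V, φ v ≠ 0 := by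
    intro v hv
    by_contra hno
    push Not at hno
    exact hv ((Module.forall_dual_apply_eq_zero_iff (ZMod p) v).1 hno)
  have hΛne : Λ.Nonempty := by
    obtain ⟨u, hu, hu0⟩ := Submodule.exists_mem_ne_zero_of_ne_bot hU
    obtain ⟨φ, hφ⟩ := hdual u hu0
    exact ⟨φ, by rw [hΛ, Finset.mem_filter]; exact ⟨mem_univ _, u, hu, hφ⟩⟩
  have hcount : ∀ v ∈ U, v ≠ 0 → p * (Λ.filter (fun l => l v = 0)).card ≤ Λ.card := by
    intro v hv hv0
    set ev : Module.Dual (ZMod p) V →+ ZMod p := LinearMap.evalAddMonoidHom v with hev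
    have hsurj : ∀ c : ZMod p, c ∈ Set.range ev := by
      intro c
      obtain ⟨φ, hφ⟩ := hdual v hv0
      refine ⟨(c * (φ v)⁻¹) • φ, ?_⟩
      change (c * (φ v)⁻¹) • φ v = c
      rw [smul_eq_mul, mul_assoc, inv_mul_cancel₀ hφ, mul_one]
    have hc : ∀ c : ZMod p, (univ.filter (fun f : Module.Dual (ZMod p) V => f v = c)).card =
        (univ.filter (fun f : Module.Dual (ZMod p) V => f v = 0)).card := fun c =>
      AddMonoidHom.card_fiber_eq_of_mem_range ev (hsurj c) (hsurj 0)
    have h1 : Fintype.card (Module.Dual (ZMod p) V) =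
        p * (univ.filter (fun f : Module.Dual (ZMod p) V => f v = 0)).card := by
      rw [← Finset.card_univ, Finset.card_eq_sum_card_fiberwise
        (f := fun f : Module.Dual (ZMod p) V => f v) (t := univ)
        (fun _ _ => Finset.mem_coe.2 (mem_univ _))]
      rw [Finset.sum_congr rfl (fun c _ => hc c), Finset.sum_const, smul_eq_mul, Finset.card_univ,
        ZMod.card]
    -- the functionals vanishing on `U`
    set Z : Finset (Module.Dual (ZMod p) V) := univ.filter (fun l => ∀ u ∈ U, l u = 0) with hZ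
    have h2 : Λ.card + Z.card = Fintype.card (Module.Dual (ZMod p) V) := by
      rw [← Finset.card_univ, ← Finset.card_filter_add_card_filter_not (s := univ)
        (fun l : Module.Dual (ZMod p) V => ∃ u ∈ U, l u ≠ 0)]
      congr 2
      ext l
      simp only [hZ, Finset.mem_filter, Finset.mem_univ, true_and]
      push Not
      rfl
    have h3 : (Λ.filter (fun l => l v = 0)).card + Z.card =
        (univ.filter (fun f : Module.Dual (ZMod p) V => f v = 0)).card := by
      rw [← Finset.card_union_of_disjoint]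
      · congr 1
        ext l
        simp only [hZ, hΛ, Finset.mem_filter, Finset.mem_univ, true_and, Finset.mem_union]
        constructor
        · rintro (h | h)
          · exact h.2
          · exact h v hv
        · intro h
          by_cases h' : ∃ u ∈ U, l u ≠ 0
          · exact Or.inl ⟨h', h⟩
          · push Not at h'
            exact Or.inr h'
      · rw [Finset.disjoint_left]
        intro l hl hl'
        rw [Finset.mem_filter, hΛ, Finset.mem_filter] at hl
        rw [hZ, Finset.mem_filter] at hl'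
        obtain ⟨⟨-, u, hu, hu'⟩, -⟩ := hl
        exact hu' (hl'.2 u hu)
    have hp1 : 1 ≤ p := hp.out.one_le
    nlinarith
  -- averaging
  have hex : ∃ l ∈ Λ, p * ∑ x ∈ X, (if y x ∈ U ∧ y x ≠ 0 ∧ l (y x) = 0 then w x else 0) ≤
      ∑ x ∈ X, (if y x ∈ U ∧ y x ≠ 0 then w x else 0) := by
    by_contra hno
    push Not at hno
    have h1 : ∑ l ∈ Λ, ∑ x ∈ X, (if y x ∈ U ∧ y x ≠ 0 then w x else 0) <
        ∑ l ∈ Λ, p * ∑ x ∈ X, (if y x ∈ U ∧ y x ≠ 0 ∧ l (y x) = 0 then w x else 0) :=
      Finset.sum_lt_sum_of_nonempty hΛne hno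
    rw [Finset.sum_const, smul_eq_mul, ← Finset.mul_sum, Finset.sum_comm, Finset.mul_sum,
      Finset.mul_sum] at h1
    have h2 : ∑ x ∈ X, p * ∑ l ∈ Λ, (if y x ∈ U ∧ y x ≠ 0 ∧ l (y x) = 0 then w x else 0) ≤
        ∑ x ∈ X, Λ.card * (if y x ∈ U ∧ y x ≠ 0 then w x else 0) := by
      apply Finset.sum_le_sum
      intro x _
      by_cases hx : y x ∈ U ∧ y x ≠ 0
      · rw [if_pos hx]
        have h3 : ∑ l ∈ Λ, (if y x ∈ U ∧ y x ≠ 0 ∧ l (y x) = 0 then w x else 0) =
            (Λ.filter (fun l => l (y x) = 0)).card * w x := by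
          rw [← Finset.sum_filter, Finset.sum_const, smul_eq_mul]
          congr 2
          ext l
          simp only [Finset.mem_filter]
          tauto
        rw [h3, ← mul_assoc]
        exact Nat.mul_le_mul_right _ (hcount _ hx.1 hx.2)
      · rw [if_neg hx]
        have h3 : ∀ l ∈ Λ, (if y x ∈ U ∧ y x ≠ 0 ∧ l (y x) = 0 then w x else 0) = 0 := by
          intro l _
          rw [if_neg]
          rintro ⟨h4, h5, _⟩
          exact hx ⟨h4, h5⟩
        rw [Finset.sum_congr rfl h3]
        simp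
    exact absurd (lt_of_lt_of_le h1 h2) (lt_irrefl _)
  obtain ⟨l, hl, hle⟩ := hex
  rw [hΛ, Finset.mem_filter] at hl
  obtain ⟨-, u, hu, hlu⟩ := hl
  refine ⟨(LinearMap.ker (l.domRestrict U)).map U.subtype, Submodule.map_subtype_le _ _, ?_, ?_⟩
  · rw [Submodule.finrank_map_subtype_eq]
    have hne : (l.domRestrict U : Module.Dual (ZMod p) U) ≠ 0 := by
      intro h0
      apply hlu
      have := congrArg (fun f : Module.Dual (ZMod p) U => f ⟨u, hu⟩) h0
      exact this
    exact Module.Dual.finrank_ker_add_one_of_ne_zero hne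
  · have hmem : ∀ v : V, v ∈ (LinearMap.ker (l.domRestrict U)).map U.subtype ↔ v ∈ U ∧ l v = 0 := by
      intro v
      rw [Submodule.mem_map]
      constructor
      · rintro ⟨⟨v', hv'⟩, h1, rfl⟩
        exact ⟨hv', h1⟩
      · rintro ⟨h1, h2⟩
        exact ⟨⟨v, h1⟩, h2, rfl⟩
    refine le_trans (le_of_eq ?_) hle
    congr 1
    refine Finset.sum_congr rfl fun x _ => ?_
    congr 1
    rw [hmem]
    exact propext (by tauto)

open Classical in
/-- a subspace of dimension `r` -/
theorem exists_subspace {p : ℕ} [hp : Fact p.Prime] {V : Type} [AddCommGroup V]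
    [Module (ZMod p) V] [Finite V] {α : Type} (X : Finset α) (y : α → V) (w : α → ℕ) (r : ℕ)
    (k : ℕ) : ∀ (U : Submodule (ZMod p) V), Module.finrank (ZMod p) U = r + k →
    ∃ U' : Submodule (ZMod p) V, U' ≤ U ∧ Module.finrank (ZMod p) U' = r ∧
      p ^ k * ∑ x ∈ X, (if y x ∈ U' ∧ y x ≠ 0 then w x else 0) ≤
        ∑ x ∈ X, (if y x ∈ U ∧ y x ≠ 0 then w x else 0) := by
  induction k with
  | zero =>
    intro U hU
    exact ⟨U, le_rfl, hU, by simp⟩
  | succ k ih =>
    intro U hU
    have hne : U ≠ ⊥ := by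
      rintro rfl
      rw [finrank_bot] at hU
      omega
    obtain ⟨U1, h1, h2, h3⟩ := exists_hyperplane X y w U hne
    obtain ⟨U2, h4, h5, h6⟩ := ih U1 (by omega)
    refine ⟨U2, h4.trans h1, h5, ?_⟩
    calc p ^ (k + 1) * ∑ x ∈ X, (if y x ∈ U2 ∧ y x ≠ 0 then w x else 0)
        = p * (p ^ k * ∑ x ∈ X, (if y x ∈ U2 ∧ y x ≠ 0 then w x else 0)) := by ring
      _ ≤ p * ∑ x ∈ X, (if y x ∈ U1 ∧ y x ≠ 0 then w x else 0) := Nat.mul_le_mul_left _ h6
      _ ≤ _ := h3

open Classical in
/-- the choice for one prime -/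
theorem exists_select {p : ℕ} [hp : Fact p.Prime] {V : Type} [AddCommGroup V]
    [Module (ZMod p) V] [Finite V] {α : Type} (X : Finset α) (y : α → V) (w : α → ℕ) (r : ℕ) :
    ∃ U : Submodule (ZMod p) V, Module.finrank (ZMod p) U ≤ r ∧
      Nat.card (V ⧸ U) = p ^ (Module.finrank (ZMod p) V - r) ∧
      p ^ (Module.finrank (ZMod p) V - r) * ∑ x ∈ X, (if y x ∈ U then w x else 0) ≤
        ∑ x ∈ X, (if y x = 0 then p ^ (Module.finrank (ZMod p) V - r) else 1) * w x := by
  set n := Module.finrank (ZMod p) V with hn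
  rcases Nat.lt_or_ge r n with h | h
  · obtain ⟨U, -, h1, h2⟩ := exists_subspace X y w r (n - r)
      (⊤ : Submodule (ZMod p) V) (by rw [finrank_top]; omega)
    refine ⟨U, h1.le, ?_, ?_⟩
    · have h3 := Submodule.card_eq_card_quotient_mul_card U
      have h4 : Nat.card V = p ^ n := by
        rw [Module.natCard_eq_pow_finrank (K := ZMod p) (V := V), Nat.card_zmod]
      have h5 : Nat.card U = p ^ r := by
        rw [Module.natCard_eq_pow_finrank (K := ZMod p) (V := U), Nat.card_zmod, h1]
      rw [h4, h5] at h3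
      have h6 : p ^ n = p ^ r * p ^ (n - r) := by rw [← pow_add]; congr 1; omega
      rw [h6] at h3
      exact (Nat.eq_of_mul_eq_mul_left (pow_pos hp.out.pos _) h3).symm
    · have e1 : ∀ x ∈ X, (if y x ∈ U then w x else 0) =
          (if y x ∈ U ∧ y x ≠ 0 then w x else 0) + (if y x = 0 then w x else 0) := by
        intro x _
        by_cases h0 : y x = 0
        · simp [h0]
        · simp [h0]
      have e2 : ∀ x ∈ X, (if y x = 0 then p ^ (n - r) else 1) * w x =
          (if y x ∈ (⊤ : Submodule (ZMod p) V) ∧ y x ≠ 0 then w x else 0) +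
            p ^ (n - r) * (if y x = 0 then w x else 0) := by
        intro x _
        by_cases h0 : y x = 0
        · simp [h0]
        · simp [h0]
      rw [Finset.sum_congr rfl e1, Finset.sum_congr rfl e2, Finset.sum_add_distrib,
        Finset.sum_add_distrib, mul_add, ← Finset.mul_sum]
      exact Nat.add_le_add_right h2 _
  · refine ⟨⊤, by rw [finrank_top]; exact h, ?_, ?_⟩
    · rw [Nat.sub_eq_zero_of_le h, pow_zero]
      have : Subsingleton (V ⧸ (⊤ : Submodule (ZMod p) V)) :=
        Submodule.Quotient.subsingleton_iff.2 rfl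
      exact Nat.card_unique
    · rw [Nat.sub_eq_zero_of_le h]
      simp

open Classical in
/-- the choice for all primes at once -/
theorem exists_select_all {ι : Type} [DecidableEq ι] (p : ι → ℕ) (hp : ∀ i, (p i).Prime)
    (V : ι → Type) [∀ i, AddCommGroup (V i)] [∀ i, Module (ZMod (p i)) (V i)] [∀ i, Finite (V i)]
    {α : Type} (X : Finset α) (y : α → ∀ i, V i) (r : ℕ) (s : Finset ι) : ∀ (w : α → ℕ),
    ∃ U : ∀ i, Submodule (ZMod (p i)) (V i), (∀ i ∈ s, Module.finrank (ZMod (p i)) (U i) ≤ r ∧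
        Nat.card (V i ⧸ U i) = p i ^ (Module.finrank (ZMod (p i)) (V i) - r)) ∧
      (∏ i ∈ s, p i ^ (Module.finrank (ZMod (p i)) (V i) - r)) *
          ∑ x ∈ X, (if ∀ i ∈ s, y x i ∈ U i then w x else 0) ≤
        ∑ x ∈ X, (∏ i ∈ s, if y x i = 0 then p i ^ (Module.finrank (ZMod (p i)) (V i) - r)
          else 1) * w x := by
  induction s using Finset.induction_on with
  | empty =>
    intro w
    exact ⟨fun _ => ⊤, by simp, by simp⟩
  | insert j s hj ih =>
    intro w
    set t : ι → ℕ := fun i => p i ^ (Module.finrank (ZMod (p i)) (V i) - r) with ht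
    obtain ⟨U, hU1, hU2⟩ := ih (fun x => (if y x j = 0 then t j else 1) * w x)
    have : Fact (p j).Prime := ⟨hp j⟩
    obtain ⟨Uj, h1, h2, h3⟩ := exists_select (p := p j) X (fun x => y x j)
      (fun x => if ∀ i ∈ s, y x i ∈ U i then w x else 0) r
    have hupd : ∀ i ∈ s, Function.update U j Uj i = U i := by
      intro i hi
      rw [Function.update_of_ne]
      rintro rfl
      exact hj hi
    refine ⟨Function.update U j Uj, ?_, ?_⟩
    · intro i hi
      rw [Finset.mem_insert] at hi
      rcases hi with rfl | hi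
      · rw [Function.update_self]
        exact ⟨h1, h2⟩
      · rw [hupd i hi]
        exact hU1 i hi
    · rw [Finset.prod_insert hj]
      have e1 : ∀ x ∈ X, (if ∀ i ∈ insert j s, y x i ∈ Function.update U j Uj i then w x else 0) =
          (if y x j ∈ Uj then (if ∀ i ∈ s, y x i ∈ U i then w x else 0) else 0) := by
        intro x _
        have hiff : (∀ i ∈ insert j s, y x i ∈ Function.update U j Uj i) ↔
            y x j ∈ Uj ∧ ∀ i ∈ s, y x i ∈ U i := by
          rw [Finset.forall_mem_insert, Function.update_self]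
          refine and_congr Iff.rfl (forall_congr' fun i => forall_congr' fun hi => ?_)
          rw [hupd i hi]
        by_cases ha : y x j ∈ Uj
        · by_cases hb : ∀ i ∈ s, y x i ∈ U i
          · rw [if_pos (hiff.2 ⟨ha, hb⟩), if_pos ha, if_pos hb]
          · rw [if_neg (fun h => hb (hiff.1 h).2), if_pos ha, if_neg hb]
        · rw [if_neg (fun h => ha (hiff.1 h).1), if_neg ha]
      rw [Finset.sum_congr rfl e1]
      have e2 : ∀ x ∈ X, (if y x j = 0 then t j else 1) *
            (if ∀ i ∈ s, y x i ∈ U i then w x else 0) =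
          (if ∀ i ∈ s, y x i ∈ U i then (if y x j = 0 then t j else 1) * w x else 0) := by
        intro x _
        split_ifs <;> simp
      have h4 : t j * ∑ x ∈ X, (if y x j ∈ Uj then (if ∀ i ∈ s, y x i ∈ U i then w x else 0)
          else 0) ≤ ∑ x ∈ X, (if ∀ i ∈ s, y x i ∈ U i then (if y x j = 0 then t j else 1) * w x
            else 0) := by
        rw [← Finset.sum_congr rfl e2]
        exact h3
      calc t j * (∏ i ∈ s, t i) * ∑ x ∈ X, (if y x j ∈ Uj then
              (if ∀ i ∈ s, y x i ∈ U i then w x else 0) else 0)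
          = (∏ i ∈ s, t i) * (t j * ∑ x ∈ X, (if y x j ∈ Uj then
              (if ∀ i ∈ s, y x i ∈ U i then w x else 0) else 0)) := by ring
        _ ≤ (∏ i ∈ s, t i) * ∑ x ∈ X, (if ∀ i ∈ s, y x i ∈ U i then
              (if y x j = 0 then t j else 1) * w x else 0) := Nat.mul_le_mul_left _ h4
        _ ≤ _ := hU2
        _ = _ := by
          refine Finset.sum_congr rfl fun x _ => ?_
          rw [Finset.prod_insert hj]
          ring

end Pool.Agent.H72.CE
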