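import Pool.Agent.H72.CE.Box
import Pool.Agent.H72.CE.Count

/-!
# Models with constants independent of the primes and of their number
-/

set_option autoImplicit false

namespace Pool.Agent.H72.CE

open Finset

/-- `good_box` for any finite index type -/
theorem good_box_fintype {F : Type} [AddCommGroup F]
    (hF : ∀ (n : ℕ) (x : F), n ≠ 0 → n • x = 0 → x = 0) {κ : Type} [Fintype κ] (M : κ → ℕ) :
    Good (F × (∀ i, ZMod (M i))) (4 ^ (Fintype.card κ + 1)) 4 2 := by
  let e := (Fintype.equivFin κ).symm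
  refine good_of_injective (AddMonoidHom.mk'
    (fun x : F × (∀ i, ZMod (M i)) => (x.1, fun j => x.2 (e j))) ?_) ?_
    (good_box (Fintype.card κ) F (fun j => M (e j)) hF)
  · intro x y; rfl
  · intro x y h
    have e1 : ((x.1, fun j => x.2 (e j)) : F × (∀ j, ZMod (M (e j)))) =
      (y.1, fun j => y.2 (e j)) := h
    simp only [Prod.mk.injEq] at e1
    refine Prod.ext e1.1 ?_
    funext i
    obtain ⟨j, rfl⟩ := e.surjective i
    exact congrFun e1.2 j

/-- coordinates -/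
theorem exists_coords {p : ℕ} [hp : Fact p.Prime] {V : Type} [AddCommGroup V]
    [Module (ZMod p) V] [Finite V] (r : ℕ) (h : Module.finrank (ZMod p) V ≤ r) :
    ∃ lam : V →+ (Fin r → ZMod p), Function.Injective lam := by
  classical
  let b := Module.finBasis (ZMod p) V
  refine ⟨AddMonoidHom.mk' (fun v k => if h' : (k : ℕ) < Module.finrank (ZMod p) V then
    b.repr v ⟨k, h'⟩ else 0) ?_, ?_⟩
  · intro v w
    funext k
    simp only [map_add, Pi.add_apply]
    split_ifs <;> simp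
  · intro v w hvw
    apply b.repr.injective
    ext j
    have h1 := congrFun hvw ⟨j, lt_of_lt_of_le j.2 h⟩
    have h2 : (if h' : (j : ℕ) < Module.finrank (ZMod p) V then b.repr v ⟨j, h'⟩ else 0) =
      (if h' : (j : ℕ) < Module.finrank (ZMod p) V then b.repr w ⟨j, h'⟩ else 0) := h1
    rw [dif_pos j.2, dif_pos j.2] at h2
    exact h2

/-- models of a set, with real constants -/
def ModelR {G : Type} [AddCommGroup G] (A : Set G) (c C : ℝ) : Prop :=
  ∃ A' ⊆ A, (A.ncard : ℝ) ≤ c * A'.ncard ∧ ∃ (H : Type) (_ : AddCommGroup H) (_ : Finite H)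
    (ψ : G → H), (∀ x ∈ A', ∀ y ∈ A', ∀ z ∈ A', ∀ t ∈ A',
      (x + y = z + t ↔ ψ x + ψ y = ψ z + ψ t)) ∧ (Nat.card H : ℝ) ≤ C * A'.ncard

/-- the sizes of the iterated difference sets -/
def Dbl {G : Type} [AddCommGroup G] (K : ℝ) (A : Set G) : Prop :=
  ∀ k, ((Dk k A).ncard : ℝ) ≤ K ^ (2 * k) * A.ncard

theorem ModelR.transfer {G G' : Type} [AddCommGroup G] [AddCommGroup G'] {A : Set G} (f : G → G')
    (hf : ∀ x ∈ A, ∀ y ∈ A, ∀ z ∈ A, ∀ t ∈ A, (x + y = z + t ↔ f x + f y = f z + f t)) {c C : ℝ}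
    (h : ModelR (f '' A) c C) : ModelR A c C := by
  obtain ⟨B', hB', hc, H, _, _, ψ, hψ, hH⟩ := h
  have hinj : Set.InjOn f A := fun x hx y hy hxy =>
    add_right_cancel ((hf x hx x hx y hy x hx).2 (by rw [hxy]))
  have himg : f '' {x ∈ A | f x ∈ B'} = B' := by
    ext y
    constructor
    · rintro ⟨x, hx, rfl⟩; exact hx.2
    · intro hy
      obtain ⟨x, hx, rfl⟩ := hB' hy
      exact ⟨x, ⟨hx, hy⟩, rfl⟩
  have e1 : (f '' A).ncard = A.ncard := hinj.ncard_image
  have e2 : B'.ncard = {x ∈ A | f x ∈ B'}.ncard := by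
    have h3 : (f '' {x ∈ A | f x ∈ B'}).ncard = {x ∈ A | f x ∈ B'}.ncard :=
      (hinj.mono (fun x hx => hx.1)).ncard_image
    rw [himg] at h3
    exact h3
  refine ⟨{x ∈ A | f x ∈ B'}, fun x hx => hx.1, ?_, H, inferInstance, inferInstance,
    fun g => ψ (f g), ?_, ?_⟩
  · rw [← e1, ← e2]; exact hc
  · intro x hx y hy z hz t ht
    rw [hf x hx.1 y hy.1 z hz.1 t ht.1]
    exact hψ _ hx.2 _ hy.2 _ hz.2 _ ht.2
  · rw [← e2]; exact hH

/-- a homomorphism which is injective on `2A - 2A` -/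
theorem hom_iff {G G' : Type} [AddCommGroup G] [AddCommGroup G'] {A : Set G} (φ : G →+ G')
    (hφ : ∀ d ∈ Dk 2 A, φ d = 0 → d = 0) : ∀ x ∈ A, ∀ y ∈ A, ∀ z ∈ A, ∀ t ∈ A,
      (x + y = z + t ↔ φ x + φ y = φ z + φ t) := by
  intro x hx y hy z hz t ht
  constructor
  · intro h
    rw [← map_add, ← map_add, h]
  · intro h
    have h1 := Dk_two hx hy hz ht
    have h2 : φ (x + y - z - t) = 0 := by
      rw [map_sub, map_sub, map_add, h]
      abel
    have h3 := hφ _ h1 h2
    rw [sub_sub, sub_eq_zero] at h3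
    exact h3

theorem Dbl.image {G G' : Type} [AddCommGroup G] [AddCommGroup G'] {A : Set G} (hA : A.Finite)
    {K : ℝ} (hK : Dbl K A) (φ : G →+ G') (hinj : Set.InjOn φ A) : Dbl K (φ '' A) := by
  intro k
  rw [hinj.ncard_image]
  refine le_trans ?_ (hK k)
  have h1 : Dk k (φ '' A) ⊆ φ '' (Dk k A) := by
    intro y hy
    obtain ⟨x, hx, rfl⟩ := Dk_image φ hy
    exact ⟨x, hx, rfl⟩
  exact_mod_cast (Set.ncard_le_ncard h1 ((Dk_finite hA).image _)).trans
    (Set.ncard_image_le (Dk_finite hA))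

/-- transfer of models along a homomorphism which is injective on `2A - 2A` -/
theorem ModelR.of_hom {G G' : Type} [AddCommGroup G] [AddCommGroup G'] {A : Set G} (φ : G →+ G')
    (hφ : ∀ d ∈ Dk 2 A, φ d = 0 → d = 0) {c C : ℝ} (h : ModelR (φ '' A) c C) : ModelR A c C :=
  ModelR.transfer φ (hom_iff φ hφ) h

theorem injOn_of_hom {G G' : Type} [AddCommGroup G] [AddCommGroup G'] {A : Set G} (φ : G →+ G')
    (hφ : ∀ d ∈ Dk 2 A, φ d = 0 → d = 0) : Set.InjOn φ A := fun x hx y hy hxy =>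
  add_right_cancel ((hom_iff φ hφ x hx x hx y hy x hx).2 (by rw [hxy]))

/-- the case where the factors are almost filled -/
theorem core_big {F : Type} [AddCommGroup F]
    (hF : ∀ (n : ℕ) (x : F), n ≠ 0 → n • x = 0 → x = 0) {t : ℕ} (M : Fin t → ℕ)
    {ι : Type} [Fintype ι] [DecidableEq ι]
    (p : ι → ℕ) (hp : ∀ i, (p i).Prime) (hinj : Function.Injective p) (V : ι → Type)
    [∀ i, AddCommGroup (V i)] [∀ i, Module (ZMod (p i)) (V i)] [∀ i, Finite (V i)]
    (A : Set ((F × (∀ j, ZMod (M j))) × ∀ i, V i)) (hA : A.Finite) (hne : A.Nonempty)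
    (K : ℝ) (hK1 : 1 ≤ K) (hK : Dbl K A)
    (hbig : ∀ i, Nat.card (V i) ≤ p i *
      {v : V i | ((0 : F × (∀ j, ZMod (M j))), (Pi.single i v : ∀ i, V i)) ∈ Dk 2 A}.ncard) :
    ModelR A (4 ^ t * 4096 * K ^ 8) (4 ^ t * 32768 * K ^ 12) := by
  classical
  -- the number `m`
  obtain ⟨m₀, hm₀, hm₁⟩ := exists_nat_pow_near (x := K ^ 4) (y := 2) (one_le_pow₀ hK1) (by norm_num)
  set m := m₀ + 1 with hm
  have hmK : (2 : ℝ) ^ m ≤ 2 * K ^ 4 := by
    rw [hm, pow_succ]; linarith
  obtain ⟨U, hU1, hU2⟩ := exists_small_subspaces p hp hinj V A hA K hK1 hK hbig m hm₁.le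
  set r := m + 4 with hr
  set q : ℕ := ∏ i, p i with hq
  -- coordinates of the subspaces
  have hlam : ∀ i, ∃ lam : U i →+ (Fin r → ZMod (p i)), Function.Injective lam := by
    intro i
    have : Fact (p i).Prime := ⟨hp i⟩
    exact exists_coords r (hU1 i)
  choose lam hlaminj using hlam
  have hcop : Pairwise (Function.onFun Nat.Coprime p) := by
    intro i j hij
    exact (Nat.coprime_primes (hp i) (hp j)).2 fun h => hij (hinj h)
  let crt : ZMod q ≃+* (∀ i, ZMod (p i)) := ZMod.prodEquivPi p hcop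
  -- the projections
  have hrho : ∀ i, ∃ ρ : V i →+ U i, ∀ u : U i, ρ (u : V i) = u := by
    intro i
    have : Fact (p i).Prime := ⟨hp i⟩
    obtain ⟨g, hg⟩ := LinearMap.exists_leftInverse_of_injective (U i).subtype
      (Submodule.ker_subtype (U i))
    refine ⟨g.toAddMonoidHom, fun u => ?_⟩
    exact LinearMap.congr_fun hg u
  choose ρ hρ using hrho
  -- the good group
  have hgood : Good ((F × (∀ j, ZMod (M j))) × ∀ i, U i) (4 ^ (t + r + 1)) 4 2 := by
    have h1 := good_box_fintype hF (Sum.elim M (fun _ : Fin r => q))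
    rw [Fintype.card_sum, Fintype.card_fin, Fintype.card_fin] at h1
    refine good_of_injective (AddMonoidHom.mk'
      (fun x : (F × (∀ j, ZMod (M j))) × ∀ i, U i =>
        ((x.1.1, fun k => match k with
          | Sum.inl j => x.1.2 j
          | Sum.inr j => crt.symm (fun i => lam i (x.2 i) j)) :
          F × (∀ k : Fin t ⊕ Fin r, ZMod (Sum.elim M (fun _ : Fin r => q) k)))) ?_) ?_ h1
    · intro x y
      refine Prod.ext rfl ?_
      funext k
      rcases k with j | j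
      · rfl
      · change crt.symm (fun i => lam i (x.2 i + y.2 i) j) =
          crt.symm (fun i => lam i (x.2 i) j) + crt.symm (fun i => lam i (y.2 i) j)
        rw [← map_add]
        congr 1
        funext i
        rw [map_add]
        rfl
    · intro x y hxy
      have e1 : x.1.1 = y.1.1 := congrArg (fun w : F × (∀ k : Fin t ⊕ Fin r,
        ZMod (Sum.elim M (fun _ : Fin r => q) k)) => w.1) hxy
      have e2 := congrArg (fun w : F × (∀ k : Fin t ⊕ Fin r,
        ZMod (Sum.elim M (fun _ : Fin r => q) k)) => w.2) hxy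
      have e3 : ∀ j, x.1.2 j = y.1.2 j := fun j => congrFun e2 (Sum.inl j)
      have e4 : ∀ j, crt.symm (fun i => lam i (x.2 i) j) = crt.symm (fun i => lam i (y.2 i) j) :=
        fun j => congrFun e2 (Sum.inr j)
      have e5 : ∀ j i, lam i (x.2 i) j = lam i (y.2 i) j := fun j i =>
        congrFun (crt.symm.injective (e4 j)) i
      refine Prod.ext (Prod.ext e1 (funext e3)) ?_
      funext i
      apply hlaminj i
      funext j
      exact e5 j i
  -- the embedding
  let Φ : ((F × (∀ j, ZMod (M j))) × ∀ i, V i) →+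
      ((F × (∀ j, ZMod (M j))) × ∀ i, U i) × (∀ i, V i ⧸ U i) :=
    AddMonoidHom.mk' (fun x => ((x.1, fun i => ρ i (x.2 i)), fun i => (U i).mkQ (x.2 i))) (by
      intro x y
      refine Prod.ext (Prod.ext rfl ?_) ?_
      · funext i
        exact map_add _ _ _
      · funext i
        exact map_add _ _ _)
  have hΦ1 : ∀ x, (Φ x).1.1 = x.1 := fun x => rfl
  have hΦ2 : ∀ x i, (Φ x).1.2 i = ρ i (x.2 i) := fun x i => rfl
  have hΦ3 : ∀ x i, (Φ x).2 i = (U i).mkQ (x.2 i) := fun x i => rfl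
  have hΦmem : ∀ x, (Φ x).2 = 0 → ∀ i, x.2 i ∈ U i := by
    intro x hx i
    have h1 := congrFun hx i
    rw [hΦ3, Pi.zero_apply, Submodule.mkQ_apply, Submodule.Quotient.mk_eq_zero] at h1
    exact h1
  have hΦinj : Function.Injective Φ := by
    rw [injective_iff_map_eq_zero]
    intro x hx
    have h1 : x.1 = 0 := by rw [← hΦ1, hx]; rfl
    have h2 := hΦmem x (by rw [hx]; rfl)
    have h3 : ∀ i, x.2 i = 0 := by
      intro i
      have h4 : ρ i (x.2 i) = 0 := by rw [← hΦ2, hx]; rfl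
      have h5 := hρ i ⟨x.2 i, h2 i⟩
      rw [show ((⟨x.2 i, h2 i⟩ : U i) : V i) = x.2 i from rfl, h4] at h5
      exact (congrArg Subtype.val h5).symm
    exact Prod.ext h1 (funext h3)
  have hfq : ∀ i, Finite (V i ⧸ U i) := fun i =>
    Finite.of_surjective (U i).mkQ (U i).mkQ_surjective
  obtain ⟨A₁', hsub, hcard, H₁, _, _, ψ, hFI, hH⟩ := hgood (∀ i, V i ⧸ U i) (Φ '' A)
    (hA.image _) (hne.image _)
  have himg : Φ '' {x ∈ A | Φ x ∈ A₁'} = A₁' := by
    ext y
    constructor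
    · rintro ⟨x, hx, rfl⟩; exact hx.2
    · intro hy
      obtain ⟨x, hx, rfl⟩ := hsub hy
      exact ⟨x, ⟨hx, hy⟩, rfl⟩
  have e1 : (Φ '' A).ncard = A.ncard := Set.ncard_image_of_injective _ hΦinj
  have e2 : A₁'.ncard = {x ∈ A | Φ x ∈ A₁'}.ncard := by
    have h3 : (Φ '' {x ∈ A | Φ x ∈ A₁'}).ncard = {x ∈ A | Φ x ∈ A₁'}.ncard :=
      Set.ncard_image_of_injective _ hΦinj
    rw [himg] at h3
    exact h3
  rw [e1, e2] at hcard
  have hcardR : (A.ncard : ℝ) ≤ 4 ^ t * 4096 * K ^ 8 * {x ∈ A | Φ x ∈ A₁'}.ncard := by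
    have h1 : (A.ncard : ℝ) ≤ 4 ^ (t + r + 1) * {x ∈ A | Φ x ∈ A₁'}.ncard := by
      exact_mod_cast hcard
    refine h1.trans ?_
    apply mul_le_mul_of_nonneg_right _ (Nat.cast_nonneg _)
    have h2 : (4 : ℝ) ^ (t + r + 1) = 4 ^ t * 1024 * (2 ^ m) ^ 2 := by
      rw [hr, show t + (m + 4) + 1 = t + 5 + m by ring, pow_add, pow_add, ← pow_mul, mul_comm m 2,
        pow_mul]
      norm_num
    rw [h2]
    have h3 : ((2 : ℝ) ^ m) ^ 2 ≤ (2 * K ^ 4) ^ 2 := pow_le_pow_left₀ (by positivity) hmK 2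
    calc (4 : ℝ) ^ t * 1024 * (2 ^ m) ^ 2 ≤ 4 ^ t * 1024 * (2 * K ^ 4) ^ 2 :=
          mul_le_mul_of_nonneg_left h3 (by positivity)
      _ = _ := by ring
  refine ⟨{x ∈ A | Φ x ∈ A₁'}, fun x hx => hx.1, hcardR, H₁ × (∀ i, V i ⧸ U i), inferInstance,
    inferInstance, fun x => (ψ (Φ x).1, (Φ x).2), ?_, ?_⟩
  · intro x hx y hy z hz w hw
    have k := fun h2 => hFI _ hx.2 _ hy.2 _ hz.2 _ hw.2 h2
    constructor
    · intro h
      have h0 : Φ x + Φ y = Φ z + Φ w := by rw [← map_add, h, map_add]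
      have h1 : (Φ x).1 + (Φ y).1 = (Φ z).1 + (Φ w).1 := congrArg Prod.fst h0
      have h2 : (Φ x).2 + (Φ y).2 = (Φ z).2 + (Φ w).2 := congrArg Prod.snd h0
      exact Prod.ext ((k h2).1 h1) h2
    · intro h
      have h1 : ψ (Φ x).1 + ψ (Φ y).1 = ψ (Φ z).1 + ψ (Φ w).1 := congrArg Prod.fst h
      have h2 : (Φ x).2 + (Φ y).2 = (Φ z).2 + (Φ w).2 := congrArg Prod.snd h
      have h3 := (k h2).2 h1
      apply hΦinj
      rw [map_add, map_add]
      exact Prod.ext h3 h2
  · set N : ℕ := {d : (F × (∀ j, ZMod (M j))) × ∀ i, V i | d ∈ Dk 2 A ∧ ∀ i, d.2 i ∈ U i}.ncard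
      with hN
    have hFbN : (Fb 2 (Φ '' A)).ncard ≤ N := by
      have hfin : {d : (F × (∀ j, ZMod (M j))) × ∀ i, V i |
          d ∈ Dk 2 A ∧ ∀ i, d.2 i ∈ U i}.Finite := (Dk_finite hA).subset fun d hd => hd.1
      have h1 : Fb 2 (Φ '' A) ⊆ (fun d => (Φ d).1) ''
          {d : (F × (∀ j, ZMod (M j))) × ∀ i, V i | d ∈ Dk 2 A ∧ ∀ i, d.2 i ∈ U i} := by
        intro g hg
        obtain ⟨d, hd, hd'⟩ := Dk_image Φ hg
        refine ⟨d, ⟨hd, hΦmem d ?_⟩, ?_⟩
        · rw [hd']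
        · simp only [hd']
      exact (Set.ncard_le_ncard h1 (hfin.image _)).trans (Set.ncard_image_le hfin)
    have hcardpi : Nat.card (∀ i, V i ⧸ U i) = ∏ i, Nat.card (V i ⧸ U i) := Nat.card_pi
    rw [Nat.card_prod, hcardpi]
    have h1 : (Nat.card H₁ : ℝ) ≤ 4 * N := by exact_mod_cast hH.trans (Nat.mul_le_mul_left _ hFbN)
    push_cast at hU2 ⊢
    have hprod : (0 : ℝ) ≤ ∏ i, (Nat.card (V i ⧸ U i) : ℝ) :=
      Finset.prod_nonneg fun _ _ => Nat.cast_nonneg _
    calc (Nat.card H₁ : ℝ) * ∏ i, (Nat.card (V i ⧸ U i) : ℝ)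
        ≤ (4 * N) * ∏ i, (Nat.card (V i ⧸ U i) : ℝ) := mul_le_mul_of_nonneg_right h1 hprod
      _ = 4 * ((∏ i, (Nat.card (V i ⧸ U i) : ℝ)) * N) := by ring
      _ ≤ 4 * (2 * K ^ 4 * A.ncard) := by
          apply mul_le_mul_of_nonneg_left hU2 (by norm_num)
      _ = 8 * K ^ 4 * A.ncard := by ring
      _ ≤ 8 * K ^ 4 * (4 ^ t * 4096 * K ^ 8 * {x ∈ A | Φ x ∈ A₁'}.ncard) := by
          apply mul_le_mul_of_nonneg_left hcardR (by positivity)
      _ = _ := by ring

/-- the general case of the core theorem -/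
theorem core {F : Type} [AddCommGroup F]
    (hF : ∀ (n : ℕ) (x : F), n ≠ 0 → n • x = 0 → x = 0) {t : ℕ} (M : Fin t → ℕ)
    {ι : Type} [Fintype ι] [DecidableEq ι]
    (p : ι → ℕ) (hp : ∀ i, (p i).Prime) (hinj : Function.Injective p) (V : ι → Type)
    [∀ i, AddCommGroup (V i)] [∀ i, Module (ZMod (p i)) (V i)] [∀ i, Finite (V i)]
    (A : Set ((F × (∀ j, ZMod (M j))) × ∀ i, V i)) (hA : A.Finite) (hne : A.Nonempty)
    (K : ℝ) (hK1 : 1 ≤ K) (hK : Dbl K A) :
    ModelR A (4 ^ t * 4096 * K ^ 8) (4 ^ t * 32768 * K ^ 12) := by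
  classical
  -- a maximal tuple of subspaces
  let P : Set (∀ i, Submodule (ZMod (p i)) (V i)) :=
    {N | ∀ d ∈ Dk 2 A, d.1 = 0 → (∀ i, d.2 i ∈ N i) → d = 0}
  have hPfin : P.Finite := Set.toFinite P
  have hPne : P.Nonempty := by
    refine ⟨fun _ => ⊥, ?_⟩
    intro d _ h1 h2
    exact Prod.ext h1 (funext fun i => (Submodule.mem_bot _).1 (h2 i))
  obtain ⟨N, hNP, hNmax⟩ := hPfin.exists_maximal hPne
  -- the quotient map
  let φ : ((F × (∀ j, ZMod (M j))) × ∀ i, V i) →+ (F × (∀ j, ZMod (M j))) × ∀ i, V i ⧸ N i :=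
    AddMonoidHom.mk' (fun x => (x.1, fun i => (N i).mkQ (x.2 i))) (by
      intro x y
      refine Prod.ext rfl ?_
      funext i
      exact map_add _ _ _)
  have hφ : ∀ d ∈ Dk 2 A, φ d = 0 → d = 0 := by
    intro d hd h0
    refine hNP d hd (congrArg Prod.fst h0) ?_
    intro i
    have h1 : (N i).mkQ (d.2 i) = 0 := congrFun (congrArg Prod.snd h0) i
    rw [Submodule.mkQ_apply, Submodule.Quotient.mk_eq_zero] at h1
    exact h1
  have hfq : ∀ i, Finite (V i ⧸ N i) := fun i =>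
    Finite.of_surjective (N i).mkQ (N i).mkQ_surjective
  apply ModelR.of_hom φ hφ
  apply core_big hF M p hp hinj (fun i => V i ⧸ N i) (φ '' A) (hA.image _) (hne.image _) K hK1
    (hK.image hA φ (injOn_of_hom φ hφ))
  intro i
  have : Fact (p i).Prime := ⟨hp i⟩
  set Di : Set (V i ⧸ N i) := {v : V i ⧸ N i | ((0 : F × (∀ j, ZMod (M j))),
    (Pi.single i v : ∀ i, V i ⧸ N i)) ∈ Dk 2 (φ '' A)} with hDi
  have himage : ∀ d ∈ Dk 2 A, φ d ∈ Dk 2 (φ '' A) := by
    rintro d ⟨a, b, ha, hb, rfl⟩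
    refine ⟨fun k => φ (a k), fun k => φ (b k), fun k => ⟨_, ha k, rfl⟩, fun k => ⟨_, hb k, rfl⟩, ?_⟩
    rw [map_sub, map_sum, map_sum]
  have hcover : ∀ w : V i ⧸ N i, ∃ c : ZMod (p i), ∃ v ∈ Di, w = c • v := by
    intro w
    obtain ⟨v, rfl⟩ := (N i).mkQ_surjective w
    by_cases hv : v ∈ N i
    · refine ⟨0, 0, ?_, ?_⟩
      · obtain ⟨a, ha⟩ := hne
        have h1 := himage _ (Dk_two ha ha ha ha)
        have h2 : φ (a + a - a - a) = 0 := by
          rw [show a + a - a - a = 0 by abel, map_zero]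
        rw [h2] at h1
        change ((0 : F × (∀ j, ZMod (M j))), (Pi.single i 0 : ∀ i, V i ⧸ N i)) ∈ Dk 2 (φ '' A)
        rw [Pi.single_zero]
        exact h1
      · rw [smul_zero, Submodule.mkQ_apply, Submodule.Quotient.mk_eq_zero]
        exact hv
    · set N' := Function.update N i (N i ⊔ Submodule.span (ZMod (p i)) {v}) with hN'
      have hle : N ≤ N' := by
        rw [hN', Pi.le_def]
        intro j
        by_cases hj : j = i
        · subst hj
          rw [Function.update_self]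
          exact le_sup_left
        · rw [Function.update_of_ne hj]
      have hvN' : v ∈ N' i := by
        rw [hN', Function.update_self]
        exact Submodule.mem_sup_right (Submodule.mem_span_singleton_self v)
      have hnot : N' ∉ P := by
        intro h
        exact hv (hNmax h hle i hvN')
      have hex : ∃ d ∈ Dk 2 A, d.1 = 0 ∧ (∀ j, d.2 j ∈ N' j) ∧ d ≠ 0 := by
        by_contra hno
        push Not at hno
        exact hnot hno
      obtain ⟨d, hd, hd1, hd2, hd0⟩ := hex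
      have hdi : d.2 i ∈ N i ⊔ Submodule.span (ZMod (p i)) {v} := by
        have := hd2 i
        rw [hN', Function.update_self] at this
        exact this
      rw [Submodule.mem_sup] at hdi
      obtain ⟨y, hy, z, hz, hyz⟩ := hdi
      obtain ⟨c, rfl⟩ := Submodule.mem_span_singleton.1 hz
      have hdj : ∀ j, j ≠ i → d.2 j ∈ N j := by
        intro j hj
        have := hd2 j
        rw [hN', Function.update_of_ne hj] at this
        exact this
      have hc : c ≠ 0 := by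
        rintro rfl
        apply hd0
        apply hNP d hd hd1
        intro j
        by_cases hj : j = i
        · subst hj
          rw [← hyz, zero_smul, add_zero]
          exact hy
        · exact hdj j hj
      have hφd : φ d = ((0 : F × (∀ j, ZMod (M j))),
          (Pi.single i (c • (N i).mkQ v) : ∀ i, V i ⧸ N i)) := by
        refine Prod.ext hd1 ?_
        funext j
        change (N j).mkQ (d.2 j) = (Pi.single i (c • (N i).mkQ v) : ∀ i, V i ⧸ N i) j
        by_cases hj : j = i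
        · subst hj
          rw [Pi.single_eq_same, ← hyz, map_add, map_smul]
          have : (N j).mkQ y = 0 := by
            rw [Submodule.mkQ_apply, Submodule.Quotient.mk_eq_zero]
            exact hy
          rw [this, zero_add]
        · rw [Pi.single_eq_of_ne hj, Submodule.mkQ_apply, Submodule.Quotient.mk_eq_zero]
          exact hdj j hj
      refine ⟨c⁻¹, c • (N i).mkQ v, ?_, ?_⟩
      · change ((0 : F × (∀ j, ZMod (M j))), (Pi.single i (c • (N i).mkQ v) :
          ∀ i, V i ⧸ N i)) ∈ Dk 2 (φ '' A)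
        rw [← hφd]
        exact himage d hd
      · rw [smul_smul, inv_mul_cancel₀ hc, one_smul]
  have hDfin : Di.Finite := Set.toFinite _
  have h1 : (Set.univ : Set (V i ⧸ N i)) ⊆
      (fun x : ZMod (p i) × (V i ⧸ N i) => x.1 • x.2) '' (Set.univ ×ˢ Di) := by
    intro w _
    obtain ⟨c, v, hv, rfl⟩ := hcover w
    exact ⟨(c, v), ⟨Set.mem_univ _, hv⟩, rfl⟩
  calc Nat.card (V i ⧸ N i) = (Set.univ : Set (V i ⧸ N i)).ncard := (Set.ncard_univ _).symm
    _ ≤ _ := Set.ncard_le_ncard h1 (Set.toFinite _)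
    _ ≤ ((Set.univ : Set (ZMod (p i))) ×ˢ Di).ncard := Set.ncard_image_le (Set.toFinite _)
    _ = p i * Di.ncard := by rw [Set.ncard_prod, Set.ncard_univ, Nat.card_zmod]

end Pool.Agent.H72.CE
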